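import Mathlib

set_option autoImplicit false
open Finset

namespace Pool.Agent.H.MP_35cd17_co

open Classical

variable {V : Type} [Fintype V] [DecidableEq V] {X : Type} [Fintype X] [Nonempty X]

theorem split_sum (W : Finset V) (g : (V → X) → ℝ)
    (hg : ∀ φ ψ : V → X, (∀ v ∈ W, φ v = ψ v) → g φ = g ψ) (p : V → X → ℝ) :
    ∑ φ : V → X, g φ * ∏ v, p v (φ v) =
      (∑ a : {v // v ∈ W} → X,
        g (fun v => if h : v ∈ W then a ⟨v, h⟩ else Classical.arbitrary X) *
          ∏ v : {v // v ∈ W}, p v (a v)) * ∏ v : {v // ¬ v ∈ W}, ∑ x, p v x := by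
  rw [← Equiv.sum_comp (Equiv.piEquivPiSubtypeProd (fun v => v ∈ W) (fun _ => X)).symm,
    Fintype.sum_prod_type, Finset.sum_mul]
  refine Finset.sum_congr rfl fun a _ => ?_
  rw [Finset.prod_univ_sum, Fintype.piFinset_univ, Finset.mul_sum]
  refine Finset.sum_congr rfl fun b _ => ?_
  rw [← Fintype.prod_subtype_mul_prod_subtype (fun v => v ∈ W), mul_assoc]
  congr 1
  · apply hg
    intro v hv
    simp [Equiv.piEquivPiSubtypeProd, hv]
  · congr 1
    · refine Finset.prod_congr (by ext; simp only [Finset.mem_univ]) fun v _ => ?_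
      simp [Equiv.piEquivPiSubtypeProd, v.2]
    · refine Finset.prod_congr rfl fun v _ => ?_
      simp [Equiv.piEquivPiSubtypeProd, v.2]

theorem indep (W : Finset V) (g : (V → X) → ℝ)
    (hg : ∀ φ ψ : V → X, (∀ v ∈ W, φ v = ψ v) → g φ = g ψ) (p p' : V → X → ℝ) (c : V → ℝ)
    (h1 : ∀ v ∈ W, p v = p' v) (h2 : ∀ v, v ∉ W → ∑ x, p v x = c v * ∑ x, p' v x) :
    ∑ φ : V → X, g φ * ∏ v, p v (φ v) =
      (∏ v ∈ Wᶜ, c v) * ∑ φ : V → X, g φ * ∏ v, p' v (φ v) := by
  rw [split_sum W g hg p, split_sum W g hg p']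
  have e1 : ∏ v : {v // ¬ v ∈ W}, ∑ x, p v x =
      (∏ v ∈ Wᶜ, c v) * ∏ v : {v // ¬ v ∈ W}, ∑ x, p' v x := by
    rw [Finset.prod_subtype Wᶜ (p := fun v => ¬ v ∈ W) (by simp) c, ← Finset.prod_mul_distrib]
    exact Finset.prod_congr rfl fun v _ => h2 v v.2
  have e2 : ∀ a : {v // v ∈ W} → X, ∏ v : {v // v ∈ W}, p v (a v) =
      ∏ v : {v // v ∈ W}, p' v (a v) := fun a =>
    Finset.prod_congr rfl fun v _ => by rw [h1 v v.2]
  simp only [e1, e2]
  ring

noncomputable def ind (G : SimpleGraph V) (A : X → X → Prop) (U : Finset V) (φ : V → X) : ℝ :=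
  if ∀ a ∈ U, ∀ b ∈ U, G.Adj a b → A (φ a) (φ b) then 1 else 0

noncomputable def mu (X : Type) [Fintype X] : ℝ := (Fintype.card X : ℝ)⁻¹

theorem sum_mu : ∑ _x : X, mu X = 1 := by
  have : (Fintype.card X : ℝ) ≠ 0 := by exact_mod_cast Fintype.card_ne_zero
  simp [mu, this]

noncomputable def tt (G : SimpleGraph V) (A : X → X → Prop) (U : Finset V) (w : X → ℝ) : ℝ :=
  ∑ φ : V → X, ind G A U φ * ∏ v, (if v ∈ U then w (φ v) else mu X)

set_option linter.unusedSectionVars false in
theorem ind_dep (G : SimpleGraph V) (A : X → X → Prop) (U : Finset V) (φ ψ : V → X)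
    (h : ∀ v ∈ U, φ v = ψ v) : ind G A U φ = ind G A U ψ := by
  unfold ind
  congr 1
  apply propext
  constructor
  · intro H a ha b hb hab
    rw [← h a ha, ← h b hb]; exact H a ha b hb hab
  · intro H a ha b hb hab
    rw [h a ha, h b hb]; exact H a ha b hb hab

omit [Nonempty X] in
theorem expand (G : SimpleGraph V) (A : X → X → Prop) (U : Finset V) (w1 w2 : X → ℝ) :
    tt G A U (fun x => w1 x + w2 x) = ∑ S ∈ U.powerset, ∑ φ : V → X, ind G A U φ *
      ∏ v, (if v ∈ S then w1 (φ v) else if v ∈ U then w2 (φ v) else mu X) := by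
  unfold tt
  rw [Finset.sum_comm]
  refine Finset.sum_congr rfl fun φ _ => ?_
  rw [← Finset.mul_sum]
  congr 1
  rw [← Finset.prod_mul_prod_compl U,
    Finset.prod_congr rfl (fun v hv => if_pos hv), Finset.prod_add, Finset.sum_mul]
  refine Finset.sum_congr rfl fun S hS => ?_
  have hS := Finset.mem_powerset.mp hS
  rw [← Finset.prod_mul_prod_compl U, ← Finset.prod_sdiff hS, mul_comm (∏ x ∈ S, _)]
  congr 1
  · congr 1
    · refine Finset.prod_congr rfl fun v hv => ?_
      rw [Finset.mem_sdiff] at hv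
      simp [hv.1, hv.2]
    · exact Finset.prod_congr rfl fun v hv => by simp [hv]
  · refine Finset.prod_congr rfl fun v hv => ?_
    have h1 : v ∉ U := by simpa using hv
    have h2 : v ∉ S := fun h => h1 (hS h)
    simp [h1, h2]

/-- After fixing the vertices of `S` the remaining sum is the sum for `U \ S`. -/
theorem strip (G : SimpleGraph V) (A : X → X → Prop) (U S : Finset V) (hS : S ⊆ U)
    (w1 w2 : X → ℝ) :
    ∑ φ : V → X, ind G A (U \ S) φ *
      ∏ v, (if v ∈ S then w1 (φ v) else if v ∈ U then w2 (φ v) else mu X)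
      = (∑ x, w1 x) ^ S.card * tt G A (U \ S) w2 := by
  have := indep (U \ S) (ind G A (U \ S)) (ind_dep G A (U \ S))
    (fun v x => if v ∈ S then w1 x else if v ∈ U then w2 x else mu X)
    (fun v x => if v ∈ U \ S then w2 x else mu X) (fun v => if v ∈ S then ∑ x, w1 x else 1)
    (by
      intro v hv
      have hv' := Finset.mem_sdiff.mp hv
      funext x
      simp [hv'.1, hv'.2])
    (by
      intro v hv
      by_cases h : v ∈ S
      · simp only [h, hv, if_true, if_false, sum_mu, mul_one]
      · have h' : v ∉ U := fun h' => hv (Finset.mem_sdiff.mpr ⟨h', h⟩)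
        simp only [h, h', hv, if_false, one_mul])
  rw [this]
  congr 1
  rw [Finset.prod_ite, Finset.prod_const_one, mul_one, Finset.prod_const]
  congr 2
  ext v
  simp only [Finset.mem_filter, Finset.mem_compl, Finset.mem_sdiff, not_and, not_not]
  exact ⟨fun h => h.2, fun h => ⟨fun _ => h, h⟩⟩

theorem dom_expand (G : SimpleGraph V) (A : X → X → Prop) (U : Finset V) (w : X → ℝ) (z : X)
    (r : ℝ) (hz : ∀ x, (x = z ∨ w x ≠ 0) → A z x ∧ A x z) :
    tt G A U (fun x => (if x = z then r else 0) + w x) =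
      ∑ S ∈ U.powerset, r ^ S.card * tt G A (U \ S) w := by
  rw [expand]
  refine Finset.sum_congr rfl fun S hS => ?_
  have hS := Finset.mem_powerset.mp hS
  have := strip G A U S hS (fun x => if x = z then r else 0) w
  simp only [Finset.sum_ite_eq', Finset.mem_univ, if_true] at this
  rw [← this]
  refine Finset.sum_congr rfl fun φ _ => ?_
  by_cases h0 : ∏ v, (if v ∈ S then (if φ v = z then r else 0) else
      if v ∈ U then w (φ v) else mu X) = 0
  · rw [h0, mul_zero, mul_zero]
  · congr 1
    have h1 := Finset.prod_ne_zero_iff.mp h0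
    have h2 : ∀ v ∈ S, φ v = z := fun v hv => by
      have := h1 v (Finset.mem_univ _)
      by_contra h
      simp [hv, h] at this
    have h3 : ∀ v ∈ U, φ v = z ∨ w (φ v) ≠ 0 := fun v hv => by
      by_cases h : v ∈ S
      · exact Or.inl (h2 v h)
      · have := h1 v (Finset.mem_univ _)
        simp only [h, hv, if_true, if_false] at this
        exact Or.inr this
    unfold ind
    congr 1
    apply propext
    constructor
    · intro H a ha b hb hab
      exact H a (Finset.mem_sdiff.mp ha).1 b (Finset.mem_sdiff.mp hb).1 hab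
    · intro H a ha b hb hab
      by_cases h : a ∈ S
      · rw [h2 a h]; exact (hz _ (h3 b hb)).1
      · by_cases h' : b ∈ S
        · rw [h2 b h']; exact (hz _ (h3 a ha)).2
        · exact H a (Finset.mem_sdiff.mpr ⟨ha, h⟩) b (Finset.mem_sdiff.mpr ⟨hb, h'⟩) hab

noncomputable def isoc (G : SimpleGraph V) (U S : Finset V) : ℝ :=
  if ∀ a ∈ S, ∀ b ∈ U, ¬ G.Adj a b then 1 else 0

theorem iso_expand (G : SimpleGraph V) (A : X → X → Prop) (U : Finset V) (w : X → ℝ) (z : X)
    (r : ℝ) (hz : ∀ x, (x = z ∨ w x ≠ 0) → ¬ A z x ∧ ¬ A x z) :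
    tt G A U (fun x => (if x = z then r else 0) + w x) =
      ∑ S ∈ U.powerset, (isoc G U S * r ^ S.card) * tt G A (U \ S) w := by
  rw [expand]
  refine Finset.sum_congr rfl fun S hS => ?_
  have hS := Finset.mem_powerset.mp hS
  have := strip G A U S hS (fun x => if x = z then r else 0) w
  simp only [Finset.sum_ite_eq', Finset.mem_univ, if_true] at this
  rw [mul_assoc, ← this, Finset.mul_sum]
  refine Finset.sum_congr rfl fun φ _ => ?_
  by_cases h0 : ∏ v, (if v ∈ S then (if φ v = z then r else 0) else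
      if v ∈ U then w (φ v) else mu X) = 0
  · rw [h0, mul_zero, mul_zero, mul_zero]
  · rw [← mul_assoc]
    congr 1
    have h1 := Finset.prod_ne_zero_iff.mp h0
    have h2 : ∀ v ∈ S, φ v = z := fun v hv => by
      have := h1 v (Finset.mem_univ _)
      by_contra h
      simp [hv, h] at this
    have h3 : ∀ v ∈ U, φ v = z ∨ w (φ v) ≠ 0 := fun v hv => by
      by_cases h : v ∈ S
      · exact Or.inl (h2 v h)
      · have := h1 v (Finset.mem_univ _)
        simp only [h, hv, if_true, if_false] at this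
        exact Or.inr this
    unfold ind isoc
    by_cases hI : ∀ a ∈ S, ∀ b ∈ U, ¬ G.Adj a b
    · rw [if_pos hI, one_mul]
      congr 1
      apply propext
      constructor
      · intro H a ha b hb hab
        exact H a (Finset.mem_sdiff.mp ha).1 b (Finset.mem_sdiff.mp hb).1 hab
      · intro H a ha b hb hab
        by_cases h : a ∈ S
        · exact absurd hab (hI a h b hb)
        · by_cases h' : b ∈ S
          · exact absurd hab.symm (hI b h' a ha)
          · exact H a (Finset.mem_sdiff.mpr ⟨ha, h⟩) b (Finset.mem_sdiff.mpr ⟨hb, h'⟩) hab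
    · rw [if_neg hI, zero_mul, if_neg]
      intro H
      apply hI
      intro a ha b hb hab
      have := H a (hS ha) b hb hab
      rw [h2 a ha] at this
      exact (hz _ (h3 b hb)).1 this

theorem iso_strip (G : SimpleGraph V) (A : X → X → Prop) (U S : Finset V) (hS : S ⊆ U)
    (hI : ∀ a ∈ S, ∀ b ∈ U, ¬ G.Adj a b) (w : X → ℝ) :
    tt G A U w = (∑ x, w x) ^ S.card * tt G A (U \ S) w := by
  rw [← strip G A U S hS w w]
  unfold tt
  refine Finset.sum_congr rfl fun φ _ => ?_
  congr 1
  · unfold ind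
    congr 1
    apply propext
    constructor
    · intro H a ha b hb hab
      exact H a (Finset.mem_sdiff.mp ha).1 b (Finset.mem_sdiff.mp hb).1 hab
    · intro H a ha b hb hab
      by_cases h : a ∈ S
      · exact absurd hab (hI a h b hb)
      · by_cases h' : b ∈ S
        · exact absurd hab.symm (hI b h' a ha)
        · exact H a (Finset.mem_sdiff.mpr ⟨ha, h⟩) b (Finset.mem_sdiff.mpr ⟨hb, h'⟩) hab
  · refine Finset.prod_congr rfl fun v _ => ?_
    by_cases h : v ∈ S
    · simp [h, hS h]
    · simp [h]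

theorem tt_zero (G : SimpleGraph V) (A : X → X → Prop) (U : Finset V) :
    tt G A U (fun _ => 0) = if U = ∅ then 1 else 0 := by
  unfold tt
  split_ifs with h
  · subst h
    have : ∀ φ : V → X, ind G A ∅ φ = 1 := fun φ => by simp [ind]
    simp only [this, one_mul, Finset.notMem_empty, if_false]
    have h2 := Finset.prod_univ_sum (fun _ : V => (Finset.univ : Finset X))
      (fun _ _ => mu X)
    rw [Fintype.piFinset_univ] at h2
    rw [← h2]
    simp only [sum_mu, Finset.prod_const_one]
  · obtain ⟨v, hv⟩ := Finset.nonempty_iff_ne_empty.mpr h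
    refine Finset.sum_eq_zero fun φ _ => ?_
    rw [Finset.prod_eq_zero (Finset.mem_univ v) (by simp [hv]), mul_zero]

end Pool.Agent.H.MP_35cd17_co
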