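import Pool.Agent.H.MP_35cd17_co.A

set_option autoImplicit false
set_option linter.unusedSectionVars false
open Finset

namespace Pool.Agent.H.MP_35cd17_co

open Classical

variable {V : Type} [Fintype V] [DecidableEq V]

def A4 (x y : Fin 4) : Prop := x.val + y.val ≤ 2

noncomputable def FF (G : SimpleGraph V) (U : Finset V) (u M v N : ℝ) : ℝ :=
  tt G A4 U ![u, M - u, v, N - v]

noncomputable def Ind (G : SimpleGraph V) (U : Finset V) : Finset (Finset V) :=
  U.powerset.filter (fun I => ∀ a ∈ I, ∀ b ∈ I, ¬ G.Adj a b)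

theorem formula (G : SimpleGraph V) (U : Finset V) (u M v N : ℝ) :
    FF G U u M v N = ∑ I ∈ Ind G U, (∏ a ∈ I, if ∃ b ∈ U, G.Adj a b then v else N) *
      ∏ a ∈ U \ I, if ∃ b ∈ I, G.Adj a b then u else M := by
  have hw : (![u, M - u, v, N - v] : Fin 4 → ℝ) =
      fun x => (![0, 0, v, N - v] : Fin 4 → ℝ) x + (![u, M - u, 0, 0] : Fin 4 → ℝ) x := by
    funext x; fin_cases x <;> simp
  unfold FF Ind
  rw [hw, expand, Finset.sum_filter]
  refine Finset.sum_congr rfl fun I hI => ?_
  have hI := Finset.mem_powerset.mp hI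
  set q : V → Fin 4 → ℝ := fun a x => if a ∈ I then (![0, 0, v, N - v] : Fin 4 → ℝ) x else
    if a ∈ U then (![u, M - u, 0, 0] : Fin 4 → ℝ) x else mu (Fin 4) with hq
  set cond : V → Fin 4 → Prop := fun a x => (a ∈ I → (∃ b ∈ U, G.Adj a b) → x = 2) ∧
    (a ∈ U → a ∉ I → (∃ b ∈ I, G.Adj a b) → x = 0) with hcond
  have key : ∀ φ : V → Fin 4, ind G A4 U φ * ∏ a, q a (φ a) =
      (if ∀ a ∈ I, ∀ b ∈ I, ¬ G.Adj a b then 1 else 0) *
        ∏ a, (q a (φ a) * if cond a (φ a) then 1 else 0) := by
    intro φ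
    rw [Finset.prod_mul_distrib]
    by_cases h0 : ∏ a, q a (φ a) = 0
    · rw [h0]; simp
    · have h1 := Finset.prod_ne_zero_iff.mp h0
      have h2 : ∀ a ∈ I, 2 ≤ (φ a).val := fun a ha => by
        have := h1 a (Finset.mem_univ _)
        simp only [hq, ha, if_true] at this
        generalize φ a = x at this
        fin_cases x <;> simp_all
      have h3 : ∀ a ∈ U, a ∉ I → (φ a).val ≤ 1 := fun a ha ha' => by
        have := h1 a (Finset.mem_univ _)
        simp only [hq, ha, ha', if_true, if_false] at this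
        generalize φ a = x at this
        fin_cases x <;> simp_all
      rw [Finset.prod_boole, mul_comm (∏ a, q a (φ a)), ← mul_assoc]
      congr 1
      unfold ind
      rw [ite_zero_mul_ite_zero, one_mul]
      congr 1
      apply propext
      constructor
      · intro H
        refine ⟨fun a ha b hb hab => ?_, fun a _ => ⟨fun ha ⟨b, hb, hab⟩ => ?_,
          fun ha ha' ⟨b, hb, hab⟩ => ?_⟩⟩
        · have := H a (hI ha) b (hI hb) hab
          have := h2 a ha
          have := h2 b hb
          unfold A4 at *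
          omega
        · have := H a (hI ha) b hb hab
          have := h2 a ha
          unfold A4 at *
          apply Fin.ext
          show _ = 2
          omega
        · have := H a ha b (hI hb) hab
          have := h2 b hb
          unfold A4 at *
          apply Fin.ext
          show _ = 0
          omega
      · rintro ⟨H1, H2⟩ a ha b hb hab
        unfold A4
        by_cases h : a ∈ I
        · have hb' : b ∉ I := fun h' => H1 a h b h' hab
          rw [(H2 a (Finset.mem_univ _)).1 h ⟨b, hb, hab⟩,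
            (H2 b (Finset.mem_univ _)).2 hb hb' ⟨a, h, hab.symm⟩]
          decide
        · by_cases h' : b ∈ I
          · rw [(H2 b (Finset.mem_univ _)).1 h' ⟨a, ha, hab.symm⟩,
              (H2 a (Finset.mem_univ _)).2 ha h ⟨b, h', hab⟩]
            decide
          · have := h3 a ha h
            have := h3 b hb h'
            omega
  show ∑ φ : V → Fin 4, ind G A4 U φ * ∏ a, q a (φ a) = _
  simp only [key]
  rw [← Finset.mul_sum]
  have h2 := Finset.prod_univ_sum (fun _ : V => (Finset.univ : Finset (Fin 4)))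
      (fun a x => q a x * if cond a x then 1 else 0)
  rw [Fintype.piFinset_univ] at h2
  rw [← h2, ite_mul, one_mul, zero_mul]
  congr 1
  rw [← Finset.prod_mul_prod_compl U, ← Finset.prod_sdiff hI, mul_comm (∏ a ∈ I, _)]
  have e3 : ∏ a ∈ Uᶜ, ∑ x, (q a x * if cond a x then 1 else 0) = 1 := by
    refine Finset.prod_eq_one fun a ha => ?_
    have h1 : a ∉ U := by simpa using ha
    have h2 : a ∉ I := fun h => h1 (hI h)
    simp only [hq, hcond, h1, h2, if_false, false_imp_iff, and_self, if_true, mul_one, sum_mu]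
  rw [e3, mul_one]
  congr 1
  · refine Finset.prod_congr rfl fun a ha => ?_
    have ha := Finset.mem_sdiff.mp ha
    by_cases h : ∃ b ∈ I, G.Adj a b
    · rw [if_pos h]
      simp only [hq, hcond, ha.1, ha.2, h, if_true, if_false, false_imp_iff, true_imp_iff,
        true_and, not_false_iff]
      simp
    · rw [if_neg h]
      simp only [hq, hcond, ha.1, ha.2, h, if_true, if_false, false_imp_iff, true_imp_iff,
        and_self, mul_one, implies_true, Fin.sum_univ_four]
      simp
  · refine Finset.prod_congr rfl fun a ha => ?_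
    by_cases h : ∃ b ∈ U, G.Adj a b
    · rw [if_pos h]
      simp only [hq, hcond, ha, h, if_true, if_false, false_imp_iff, true_imp_iff,
        and_true, not_true, implies_true]
      simp
    · rw [if_neg h]
      simp only [hq, hcond, ha, h, if_true, if_false, false_imp_iff, true_imp_iff,
        and_self, mul_one, implies_true, Fin.sum_univ_four, not_true]
      simp

theorem degenerate (G : SimpleGraph V) (U : Finset V) (u M v N : ℝ) (h : u * v = 0) :
    FF G U u M v N = FF G U 0 M N N := by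
  rw [formula, formula]
  refine Finset.sum_congr rfl fun I hI => ?_
  obtain ⟨hI1, hI2⟩ := Finset.mem_filter.mp hI
  have hI1 := Finset.mem_powerset.mp hI1
  by_cases hx : ∃ a ∈ I, ∃ b ∈ U, G.Adj a b
  · obtain ⟨a, ha, b, hb, hab⟩ := hx
    have hb' : b ∈ U \ I := Finset.mem_sdiff.mpr ⟨hb, fun h' => hI2 a ha b h' hab⟩
    rw [Finset.prod_eq_zero (f := fun a => if ∃ b ∈ I, G.Adj a b then (0 : ℝ) else M) hb'
      (if_pos ⟨a, ha, hab.symm⟩), mul_zero]
    rcases mul_eq_zero.mp h with h | h
    · rw [Finset.prod_eq_zero (f := fun a => if ∃ b ∈ I, G.Adj a b then u else M) hb'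
        (by rw [if_pos ⟨a, ha, hab.symm⟩, h]), mul_zero]
    · rw [Finset.prod_eq_zero (f := fun a => if ∃ b ∈ U, G.Adj a b then v else N) ha
        (by rw [if_pos ⟨b, hb, hab⟩, h]), zero_mul]
  · congr 1
    · refine Finset.prod_congr rfl fun a ha => ?_
      have : ¬ ∃ b ∈ U, G.Adj a b := fun h' => hx ⟨a, ha, h'⟩
      rw [if_neg this, if_neg this]
    · refine Finset.prod_congr rfl fun a ha => ?_
      have : ¬ ∃ b ∈ I, G.Adj a b := fun ⟨b, hb, hab⟩ =>
        hx ⟨b, hb, a, (Finset.mem_sdiff.mp ha).1, hab.symm⟩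
      rw [if_neg this, if_neg this]

theorem mono_conv (i j : ℕ) (c u u1 u2 l : ℝ) (hc : 0 ≤ c) (h1 : 0 < u1) (h2 : 0 < u2)
    (hl0 : 0 ≤ l) (hl1 : l ≤ 1) (hu : u = l * u1 + (1 - l) * u2) :
    (c / u) ^ j * u ^ i ≤ l * ((c / u1) ^ j * u1 ^ i) + (1 - l) * ((c / u2) ^ j * u2 ^ i) := by
  have e : ∀ t : ℝ, 0 < t → (c / t) ^ j * t ^ i = c ^ j * t ^ ((i : ℤ) - j) := by
    intro t ht
    rw [zpow_sub₀ ht.ne', zpow_natCast, zpow_natCast, div_pow]
    ring
  have := (convexOn_zpow (𝕜 := ℝ) ((i : ℤ) - j)).2 (Set.mem_Ioi.mpr h1) (Set.mem_Ioi.mpr h2) hl0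
    (sub_nonneg.mpr hl1) (by ring)
  simp only [smul_eq_mul] at this
  have hu0 : 0 < u := by
    rw [hu]
    rcases eq_or_lt_of_le hl0 with h | h
    · rw [← h]; simpa using h2
    · have := mul_pos h h1
      have := mul_nonneg (sub_nonneg.mpr hl1) h2.le
      linarith
  rw [e u hu0, e u1 h1, e u2 h2, hu]
  have := mul_le_mul_of_nonneg_left this (pow_nonneg hc j)
  linarith

theorem move1 (G : SimpleGraph V) (U : Finset V) (c u M N l : ℝ) (hc : 0 < c) (hM : 0 < M)
    (hN : 0 < N) (hl0 : 0 ≤ l) (hl1 : l ≤ 1) (hu : u = l * M + (1 - l) * (c / N)) :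
    FF G U u M (c / u) N ≤ l * FF G U M M (c / M) N + (1 - l) * FF G U (c / N) M N N := by
  rw [formula, formula, formula, Finset.mul_sum, Finset.mul_sum, ← Finset.sum_add_distrib]
  refine Finset.sum_le_sum fun I _ => ?_
  simp only [Finset.prod_ite, Finset.prod_const]
  generalize (I.filter fun a => ∃ b ∈ U, G.Adj a b).card = j
  generalize (I.filter fun a => ¬ ∃ b ∈ U, G.Adj a b).card = j'
  generalize ((U \ I).filter fun a => ∃ b ∈ I, G.Adj a b).card = i
  generalize ((U \ I).filter fun a => ¬ ∃ b ∈ I, G.Adj a b).card = i'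
  have := mono_conv i j c u M (c / N) l hc.le hM (div_pos hc hN) hl0 hl1 hu
  have e : c / (c / N) = N := by field_simp
  rw [e] at this
  have := mul_le_mul_of_nonneg_left this (mul_nonneg (pow_nonneg hN.le j') (pow_nonneg hM.le i'))
  nlinarith

noncomputable def hh (G : SimpleGraph V) (U : Finset V) (x v : ℝ) : ℝ :=
  ∑ I ∈ Ind G U, v ^ I.card * x ^ (U.card - I.card)

theorem star_form (G : SimpleGraph V) (U : Finset V) :
    ∃ (k : ℕ) (U' : Finset V), ∀ x v N : ℝ, FF G U x x v N = (x + N) ^ k * hh G U' x v := by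
  refine ⟨(U.filter fun a => ∀ b ∈ U, ¬ G.Adj a b).card,
    U \ U.filter fun a => ∀ b ∈ U, ¬ G.Adj a b, fun x v N => ?_⟩
  set S := U.filter fun a => ∀ b ∈ U, ¬ G.Adj a b with hS
  have h1 := iso_strip G A4 U S (Finset.filter_subset _ _)
    (fun a ha => (Finset.mem_filter.mp ha).2) ![x, x - x, v, N - v]
  have h2 := formula G (U \ S) x x v N
  unfold FF at h2 ⊢
  rw [h1, h2]
  congr 1
  · congr 1
    simp [Fin.sum_univ_four]
  · unfold hh
    refine Finset.sum_congr rfl fun I hI => ?_
    obtain ⟨hI1, _⟩ := Finset.mem_filter.mp hI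
    have hI1 := Finset.mem_powerset.mp hI1
    congr 1
    · rw [← Finset.prod_const]
      refine Finset.prod_congr rfl fun a ha => if_pos ?_
      have ha := Finset.mem_sdiff.mp (hI1 ha)
      have : ¬ ∀ b ∈ U, ¬ G.Adj a b := fun h => ha.2 (Finset.mem_filter.mpr ⟨ha.1, h⟩)
      push Not at this
      obtain ⟨b, hb, hab⟩ := this
      exact ⟨b, Finset.mem_sdiff.mpr ⟨hb, fun h => (Finset.mem_filter.mp h).2 a ha.1 hab.symm⟩,
        hab⟩
    · simp only [ite_self, Finset.prod_const]
      rw [Finset.card_sdiff_of_subset hI1]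

end Pool.Agent.H.MP_35cd17_co
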