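import Pool.Agent.H.MP_35cd17_co.B

set_option autoImplicit false
set_option linter.unusedSectionVars false
open Finset

namespace Pool.Agent.H.MP_35cd17_co

open Classical

variable {V : Type} [Fintype V] [DecidableEq V]

noncomputable def Ext (G : SimpleGraph V) (U I : Finset V) : Finset V :=
  U.filter (fun z => z ∉ I ∧ ∀ b ∈ I, ¬ G.Adj z b)

noncomputable def Nb (G : SimpleGraph V) (U I : Finset V) : Finset V :=
  U.filter (fun z => ∃ b ∈ I, G.Adj z b)

theorem mem_Ind {G : SimpleGraph V} {U I : Finset V} :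
    I ∈ Ind G U ↔ I ⊆ U ∧ ∀ a ∈ I, ∀ b ∈ I, ¬ G.Adj a b := by
  simp [Ind]

theorem dc (G : SimpleGraph V) (U : Finset V) (f : Finset V → ℝ) :
    ∑ J ∈ Ind G U, ∑ z ∈ J, f (J.erase z) = ∑ I ∈ Ind G U, (Ext G U I).card * f I := by
  have : ∀ I, ((Ext G U I).card : ℝ) * f I = ∑ _z ∈ Ext G U I, f I := fun I => by simp
  simp only [this]
  rw [Finset.sum_sigma', Finset.sum_sigma']
  refine Finset.sum_bij' (fun p _ => ⟨p.1.erase p.2, p.2⟩) (fun p _ => ⟨insert p.2 p.1, p.2⟩)
    ?_ ?_ ?_ ?_ ?_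
  · rintro ⟨J, z⟩ h
    obtain ⟨h1, h2⟩ := Finset.mem_sigma.mp h
    obtain ⟨h3, h4⟩ := mem_Ind.mp h1
    refine Finset.mem_sigma.mpr ⟨mem_Ind.mpr ⟨(Finset.erase_subset _ _).trans h3,
      fun a ha b hb => h4 a (Finset.mem_of_mem_erase ha) b (Finset.mem_of_mem_erase hb)⟩, ?_⟩
    exact Finset.mem_filter.mpr ⟨h3 h2, Finset.notMem_erase _ _,
      fun b hb => h4 z h2 b (Finset.mem_of_mem_erase hb)⟩
  · rintro ⟨I, z⟩ h
    obtain ⟨h1, h2⟩ := Finset.mem_sigma.mp h
    obtain ⟨h3, h4⟩ := mem_Ind.mp h1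
    obtain ⟨h5, h6, h7⟩ := Finset.mem_filter.mp h2
    refine Finset.mem_sigma.mpr ⟨mem_Ind.mpr ⟨Finset.insert_subset h5 h3, ?_⟩,
      Finset.mem_insert_self _ _⟩
    intro a ha b hb hab
    rcases Finset.mem_insert.mp ha with ha | ha <;> rcases Finset.mem_insert.mp hb with hb | hb
    · rw [ha, hb] at hab; exact G.irrefl hab
    · rw [ha] at hab; exact h7 b hb hab
    · rw [hb] at hab; exact h7 a ha hab.symm
    · exact h4 a ha b hb hab
  · rintro ⟨J, z⟩ h
    obtain ⟨_, h2⟩ := Finset.mem_sigma.mp h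
    simp only [Finset.insert_erase h2]
  · rintro ⟨I, z⟩ h
    obtain ⟨_, h2⟩ := Finset.mem_sigma.mp h
    obtain ⟨_, h6, _⟩ := Finset.mem_filter.mp h2
    simp only [Finset.erase_insert h6]
  · intro _ _; rfl

theorem card_ext (G : SimpleGraph V) (U I : Finset V) (hI : I ∈ Ind G U) :
    ((Ext G U I).card : ℝ) = U.card - I.card - (Nb G U I).card := by
  obtain ⟨h1, h2⟩ := mem_Ind.mp hI
  have e1 : U = (Ext G U I ∪ I) ∪ Nb G U I := by
    ext z
    simp only [Ext, Nb, Finset.mem_union, Finset.mem_filter]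
    constructor
    · intro hz
      by_cases h : z ∈ I
      · exact Or.inl (Or.inr h)
      · by_cases h' : ∃ b ∈ I, G.Adj z b
        · exact Or.inr ⟨hz, h'⟩
        · exact Or.inl (Or.inl ⟨hz, h, fun b hb hab => h' ⟨b, hb, hab⟩⟩)
    · rintro ((h | h) | h)
      · exact h.1
      · exact h1 h
      · exact h.1
  have d1 : Disjoint (Ext G U I) I := Finset.disjoint_left.mpr fun z hz =>
    (Finset.mem_filter.mp hz).2.1
  have d2 : Disjoint (Ext G U I ∪ I) (Nb G U I) := Finset.disjoint_left.mpr fun z hz hz' => by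
    obtain ⟨b, hb, hab⟩ := (Finset.mem_filter.mp hz').2
    rcases Finset.mem_union.mp hz with h | h
    · exact (Finset.mem_filter.mp h).2.2 b hb hab
    · exact h2 z h b hb hab
  have := congrArg Finset.card e1
  rw [Finset.card_union_of_disjoint d2, Finset.card_union_of_disjoint d1] at this
  have : (U.card : ℝ) = (Ext G U I).card + I.card + (Nb G U I).card := by exact_mod_cast this
  linarith

theorem local_ineq (G : SimpleGraph V) (U J : Finset V) :
    ((J.card : ℝ) - 1) * (Nb G U J).card ≤ ∑ z ∈ J, ((Nb G U (J.erase z)).card : ℝ) := by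
  have e : ∀ I : Finset V, ((Nb G U I).card : ℝ) =
      ∑ y ∈ U, if ∃ b ∈ I, G.Adj y b then (1 : ℝ) else 0 := fun I => by
    simp [Nb]
  simp only [e]
  rw [Finset.sum_comm, Finset.mul_sum]
  refine Finset.sum_le_sum fun y _ => ?_
  split_ifs with h
  · obtain ⟨b, hb, hab⟩ := h
    have h1 : ((J.card : ℝ) - 1) * 1 = ∑ _z ∈ J.erase b, (1 : ℝ) := by
      have := Finset.card_erase_add_one hb
      have : (J.card : ℝ) = (J.erase b).card + 1 := by exact_mod_cast this.symm
      simp [this]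
    rw [h1]
    refine le_trans (Finset.sum_le_sum fun z hz => ?_)
      (Finset.sum_le_sum_of_subset_of_nonneg (Finset.erase_subset b J) fun z _ _ => by
        split_ifs <;> norm_num)
    rw [if_pos ⟨b, Finset.mem_erase.mpr ⟨(Finset.ne_of_mem_erase hz).symm, hb⟩, hab⟩]
  · rw [mul_zero]
    exact Finset.sum_nonneg fun z _ => by split_ifs <;> norm_num

noncomputable def dl (G : SimpleGraph V) (U I : Finset V) : ℝ := I.card - (Nb G U I).card

noncomputable def DD (a b : ℕ) (x v : ℝ) : ℝ :=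
  a * (v ^ b * x ^ a) - b * (v ^ (b - 1) * x ^ a) * (x + v)

theorem pw (b : ℕ) (v : ℝ) : (b : ℝ) * v ^ (b - 1) * v = b * v ^ b := by
  cases b with
  | zero => simp
  | succ b => simp [pow_succ]; ring

theorem erase_mon (U J : Finset V) (hJ : J ⊆ U) (z : V) (hz : z ∈ J) (x v : ℝ) :
    v ^ (J.erase z).card * x ^ (U.card - (J.erase z).card) =
      v ^ (J.card - 1) * x ^ (U.card - J.card) * x := by
  have h1 := Finset.card_le_card hJ
  have h2 := Finset.card_pos.mpr ⟨z, hz⟩
  rw [Finset.card_erase_of_mem hz, show U.card - (J.card - 1) = U.card - J.card + 1 by omega,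
    pow_succ, mul_assoc]

theorem ident1 (G : SimpleGraph V) (U : Finset V) (x v : ℝ) :
    ∑ I ∈ Ind G U, DD (U.card - I.card) I.card x v =
      ∑ I ∈ Ind G U, - dl G U I * (v ^ I.card * x ^ (U.card - I.card)) := by
  have h := dc G U (fun I => v ^ I.card * x ^ (U.card - I.card))
  have h2 : ∑ J ∈ Ind G U, ∑ z ∈ J, v ^ (J.erase z).card * x ^ (U.card - (J.erase z).card) =
      ∑ J ∈ Ind G U, J.card * (v ^ (J.card - 1) * x ^ (U.card - J.card) * x) := by
    refine Finset.sum_congr rfl fun J hJ => ?_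
    rw [Finset.sum_congr rfl fun z hz => erase_mon U J (mem_Ind.mp hJ).1 z hz x v]
    simp
  rw [h2] at h
  rw [← sub_eq_zero, ← Finset.sum_sub_distrib, ← sub_eq_zero.mpr h.symm,
    ← Finset.sum_sub_distrib]
  refine Finset.sum_congr rfl fun I hI => ?_
  rw [card_ext G U I hI]
  unfold DD dl
  rw [Nat.cast_sub (Finset.card_le_card (mem_Ind.mp hI).1)]
  have := pw I.card v
  linear_combination (-(x ^ (U.card - I.card))) * this

theorem ineq2 (G : SimpleGraph V) (U : Finset V) (x v : ℝ) (hx : 0 ≤ x) (hv : 0 ≤ v) :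
    0 ≤ v * (∑ I ∈ Ind G U, - dl G U I * DD (U.card - I.card) I.card x v) -
      (v - x) * ∑ I ∈ Ind G U, - dl G U I * (v ^ I.card * x ^ (U.card - I.card)) := by
  have h := dc G U (fun I => dl G U I * (v ^ I.card * x ^ (U.card - I.card)) * v)
  have h2 : ∑ J ∈ Ind G U, ∑ z ∈ J, dl G U (J.erase z) *
      (v ^ (J.erase z).card * x ^ (U.card - (J.erase z).card)) * v ≤
      ∑ J ∈ Ind G U, (J.card - 1) * dl G U J * (v ^ J.card * x ^ (U.card - J.card) * x) := by
    refine Finset.sum_le_sum fun J hJ => ?_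
    have e : ∀ z ∈ J, dl G U (J.erase z) *
        (v ^ (J.erase z).card * x ^ (U.card - (J.erase z).card)) * v =
        ((J.card : ℝ) - 1 - (Nb G U (J.erase z)).card) *
          (v ^ J.card * x ^ (U.card - J.card) * x) := by
      intro z hz
      rw [erase_mon U J (mem_Ind.mp hJ).1 z hz]
      have h2 := Finset.card_pos.mpr ⟨z, hz⟩
      have h3 : v ^ J.card = v ^ (J.card - 1) * v := by
        rw [← pow_succ]; congr 1; omega
      have h4 : ((J.erase z).card : ℝ) = J.card - 1 := by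
        have := Finset.card_erase_add_one hz
        have : (J.card : ℝ) = (J.erase z).card + 1 := by exact_mod_cast this.symm
        linarith
      unfold dl
      rw [h3, h4]; ring
    rw [Finset.sum_congr rfl e, ← Finset.sum_mul]
    refine mul_le_mul_of_nonneg_right ?_ (by positivity)
    have := local_ineq G U J
    rw [Finset.sum_sub_distrib, Finset.sum_const, nsmul_eq_mul]
    unfold dl
    linarith
  rw [h] at h2
  have h3 : 0 ≤ ∑ I ∈ Ind G U, dl G U I * (dl G U I + 1) *
      (v ^ I.card * x ^ (U.card - I.card) * v) := by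
    refine Finset.sum_nonneg fun I _ => mul_nonneg ?_ (by positivity)
    have : ∀ k : ℤ, 0 ≤ k * (k + 1) := fun k => by
      rcases le_or_gt 0 k with h | h <;> nlinarith
    have := this ((I.card : ℤ) - (Nb G U I).card)
    unfold dl
    exact_mod_cast this
  have h4 := add_nonneg (sub_nonneg.mpr h2) h3
  refine le_of_le_of_eq h4 ?_
  rw [Finset.mul_sum, Finset.mul_sum, ← Finset.sum_sub_distrib, ← Finset.sum_sub_distrib,
    ← Finset.sum_add_distrib]
  refine Finset.sum_congr rfl fun I hI => ?_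
  rw [card_ext G U I hI]
  unfold DD
  rw [Nat.cast_sub (Finset.card_le_card (mem_Ind.mp hI).1)]
  have := pw I.card v
  have e : ((Nb G U I).card : ℝ) = I.card - dl G U I := by unfold dl; ring
  rw [e]
  linear_combination (-(dl G U I * x ^ (U.card - I.card) * (x + v))) * this

noncomputable def vv (C x : ℝ) : ℝ := (C - x ^ 2) / (2 * x)

theorem vv_deriv (C x : ℝ) (hx : 0 < x) : HasDerivAt (vv C) (-(x + vv C x) / x) x := by
  have h1 : HasDerivAt (fun x : ℝ => C - x ^ 2) (-(2 * x)) x := by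
    simpa using (hasDerivAt_pow 2 x).const_sub C
  have h2 : HasDerivAt (fun x : ℝ => 2 * x) 2 x := by
    simpa using (hasDerivAt_id x).const_mul 2
  have := h1.div h2 (by positivity)
  refine HasDerivAt.congr_deriv this ?_
  unfold vv
  field_simp
  ring

theorem mon_deriv (C x : ℝ) (hx : 0 < x) (a b : ℕ) :
    HasDerivAt (fun x => vv C x ^ b * x ^ a) (DD a b x (vv C x) / x) x := by
  have := ((vv_deriv C x hx).pow b).mul (hasDerivAt_pow a x)
  refine HasDerivAt.congr_deriv this ?_
  unfold DD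
  have h := pw a x
  simp only [Pi.pow_apply]
  field_simp
  linear_combination (vv C x ^ b) * h

def Nice (C : ℝ) (f : ℝ → ℝ) : Prop :=
  ∃ g1 g2 : ℝ → ℝ, ∀ x, 0 < x → HasDerivAt f (g1 x / x) x ∧ HasDerivAt g1 (g2 x / x) x ∧
    (0 ≤ vv C x → 0 ≤ vv C x * g2 x - (vv C x - x) * g1 x)

theorem nice_hh (G : SimpleGraph V) (U : Finset V) (C : ℝ) :
    Nice C (fun x => hh G U x (vv C x)) := by
  refine ⟨fun x => ∑ I ∈ Ind G U, - dl G U I * (vv C x ^ I.card * x ^ (U.card - I.card)),
    fun x => ∑ I ∈ Ind G U, - dl G U I * DD (U.card - I.card) I.card x (vv C x),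
    fun x hx => ⟨?_, ?_, fun hv => ineq2 G U x _ hx.le hv⟩⟩
  · beta_reduce
    rw [← ident1, Finset.sum_div]
    exact HasDerivAt.fun_sum fun I _ => mon_deriv C x hx _ _
  · beta_reduce
    rw [Finset.sum_div]
    refine HasDerivAt.fun_sum fun I _ => ?_
    rw [mul_div_assoc]
    exact (mon_deriv C x hx _ _).const_mul _

theorem nice_sum {ι : Type} (C : ℝ) (s : Finset ι) (c : ι → ℝ) (f : ι → ℝ → ℝ)
    (hc : ∀ i, 0 ≤ c i) (hf : ∀ i, Nice C (f i)) : Nice C (fun x => ∑ i ∈ s, c i * f i x) := by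
  choose g1 g2 h using hf
  refine ⟨fun x => ∑ i ∈ s, c i * g1 i x, fun x => ∑ i ∈ s, c i * g2 i x,
    fun x hx => ⟨?_, ?_, fun hv => ?_⟩⟩
  · beta_reduce
    rw [Finset.sum_div]
    refine HasDerivAt.fun_sum fun i _ => ?_
    rw [mul_div_assoc]
    exact (h i x hx).1.const_mul _
  · beta_reduce
    rw [Finset.sum_div]
    refine HasDerivAt.fun_sum fun i _ => ?_
    rw [mul_div_assoc]
    exact (h i x hx).2.1.const_mul _
  · beta_reduce
    rw [Finset.mul_sum, Finset.mul_sum, ← Finset.sum_sub_distrib]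
    refine Finset.sum_nonneg fun i _ => ?_
    have := mul_nonneg (hc i) ((h i x hx).2.2 hv)
    linarith

theorem nice_max (C : ℝ) (f : ℝ → ℝ) (hf : Nice C f) (x1 x0 x2 : ℝ) (h1 : 0 < x1)
    (h10 : x1 ≤ x0) (h02 : x0 ≤ x2) (hv : ∀ x, x1 < x → x < x2 → 0 < vv C x) :
    f x0 ≤ f x1 ∨ f x0 ≤ f x2 := by
  obtain ⟨g1, g2, h⟩ := hf
  rcases eq_or_lt_of_le h10 with e | h10
  · exact Or.inl (by rw [e])
  rcases eq_or_lt_of_le h02 with e | h02
  · exact Or.inr (by rw [e])
  have hK : ∀ x ∈ Set.Ioo x1 x2, ∃ d, 0 ≤ d ∧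
      HasDerivAt (fun x => g1 x / (vv C x ^ 1 * x ^ 2)) d x := by
    intro x hx
    have hx0 : 0 < x := h1.trans hx.1
    have hv0 := hv x hx.1 hx.2
    have := (h x hx0).2.1.div (mon_deriv C x hx0 2 1) (by positivity)
    refine ⟨_, ?_, this⟩
    refine div_nonneg ?_ (sq_nonneg _)
    have h3 := (h x hx0).2.2 hv0.le
    have : g2 x / x * (vv C x ^ 1 * x ^ 2) - g1 x * (DD 2 1 x (vv C x) / x) =
        x * (vv C x * g2 x - (vv C x - x) * g1 x) := by
      unfold DD
      field_simp
      push_cast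
      ring
    rw [this]
    positivity
  have hmono : MonotoneOn (fun x => g1 x / (vv C x ^ 1 * x ^ 2)) (Set.Ioo x1 x2) := by
    apply monotoneOn_of_deriv_nonneg (convex_Ioo _ _)
    · intro x hx
      obtain ⟨d, _, hd⟩ := hK x hx
      exact hd.continuousAt.continuousWithinAt
    · rw [interior_Ioo]
      intro x hx
      obtain ⟨d, _, hd⟩ := hK x hx
      exact hd.differentiableAt.differentiableWithinAt
    · rw [interior_Ioo]
      intro x hx
      obtain ⟨d, hd0, hd⟩ := hK x hx
      rw [hd.deriv]; exact hd0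
  have hpos : ∀ x ∈ Set.Ioo x1 x2, 0 < vv C x ^ 1 * x ^ 2 := fun x hx => by
    have hx0 : 0 < x := h1.trans hx.1
    have hv0 := hv x hx.1 hx.2
    positivity
  have hm0 : x0 ∈ Set.Ioo x1 x2 := ⟨h10, h02⟩
  rcases le_total 0 (g1 x0) with hg | hg
  · right
    have : MonotoneOn f (Set.Icc x0 x2) := by
      apply monotoneOn_of_deriv_nonneg (convex_Icc _ _)
      · intro x hx
        exact (h x (by linarith [hx.1])).1.continuousAt.continuousWithinAt
      · rw [interior_Icc]
        intro x hx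
        exact (h x (by linarith [hx.1])).1.differentiableAt.differentiableWithinAt
      · rw [interior_Icc]
        intro x hx
        have hx0 : 0 < x := by linarith [hx.1]
        have hx' : x ∈ Set.Ioo x1 x2 := ⟨h10.trans hx.1, hx.2⟩
        rw [(h x hx0).1.deriv]
        have h5 := hmono hm0 hx' hx.1.le
        have h6 : 0 ≤ g1 x / (vv C x ^ 1 * x ^ 2) := (div_nonneg hg (hpos x0 hm0).le).trans h5
        have : 0 ≤ g1 x := by
          by_contra hc
          exact absurd h6 (not_le.mpr (div_neg_of_neg_of_pos (not_le.mp hc) (hpos x hx')))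
        positivity
    exact this ⟨le_rfl, h02.le⟩ ⟨h02.le, le_rfl⟩ h02.le
  · left
    have : AntitoneOn f (Set.Icc x1 x0) := by
      apply antitoneOn_of_deriv_nonpos (convex_Icc _ _)
      · intro x hx
        exact (h x (by linarith [hx.1])).1.continuousAt.continuousWithinAt
      · rw [interior_Icc]
        intro x hx
        exact (h x (by linarith [hx.1])).1.differentiableAt.differentiableWithinAt
      · rw [interior_Icc]
        intro x hx
        have hx0 : 0 < x := by linarith [hx.1]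
        have hx' : x ∈ Set.Ioo x1 x2 := ⟨hx.1, hx.2.trans h02⟩
        rw [(h x hx0).1.deriv]
        have h5 := hmono hx' hm0 hx.2.le
        have h6 : g1 x / (vv C x ^ 1 * x ^ 2) ≤ 0 :=
          h5.trans (div_nonpos_of_nonpos_of_nonneg hg (hpos x0 hm0).le)
        have h7 : g1 x ≤ 0 := by
          by_contra hc
          exact absurd h6 (not_le.mpr (div_pos (not_le.mp hc) (hpos x hx')))
        exact div_nonpos_of_nonpos_of_nonneg h7 hx0.le
    exact this ⟨le_rfl, h10.le⟩ ⟨h10.le, le_rfl⟩ h10.le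

end Pool.Agent.H.MP_35cd17_co
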