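import Pool.Agent.H.MP_35cd17_co.C

set_option autoImplicit false
set_option linter.unusedSectionVars false
open Finset

namespace Pool.Agent.H.MP_35cd17_co

open Classical

variable {V : Type} [Fintype V] [DecidableEq V]

noncomputable def Phi (G : SimpleGraph V) (c : Finset V → ℝ) (u M v N : ℝ) : ℝ :=
  ∑ U, c U * FF G U u M v N

theorem Phi_deg (G : SimpleGraph V) (c : Finset V → ℝ) (u M v N : ℝ) (h : u * v = 0) :
    Phi G c u M v N = Phi G c 0 M N N := by
  unfold Phi
  exact Finset.sum_congr rfl fun U _ => by rw [degenerate G U u M v N h]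

theorem move2 (G : SimpleGraph V) (c : Finset V → ℝ) (hc : ∀ U, 0 ≤ c U) (x v N : ℝ)
    (hx : 0 < x) (hv : 0 ≤ v) (hvN : v ≤ N) :
    ∃ u' M' N', 0 ≤ u' ∧ u' ≤ M' ∧ 0 ≤ N' ∧ M' + N' = x + N ∧
      M' ^ 2 + 2 * u' * N' = x ^ 2 + 2 * x * v ∧ Phi G c x x v N ≤ Phi G c u' M' N' N' := by
  choose k U' hk using star_form G
  set C := x ^ 2 + 2 * x * v with hC
  set T := x + N with hT
  have hN : 0 ≤ N := hv.trans hvN
  have hC0 : 0 < C := by positivity
  have hT0 : 0 < T := by positivity
  have hD : N ^ 2 ≤ T ^ 2 - C := by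
    have := mul_nonneg hx.le (sub_nonneg.mpr hvN)
    rw [hC, hT]; nlinarith
  have hD0 : 0 ≤ T ^ 2 - C := (sq_nonneg N).trans hD
  have hf := nice_sum C Finset.univ (fun U => c U * T ^ k U)
    (fun U t => hh G (U' U) t (vv C t)) (fun U => mul_nonneg (hc U) (pow_nonneg hT0.le _))
    (fun U => nice_hh G (U' U) C)
  have hval : ∀ t s n : ℝ, 0 < t → t + n = T → t ^ 2 + 2 * t * s = C →
      ∑ U, (c U * T ^ k U) * hh G (U' U) t (vv C t) = Phi G c t t s n := by
    intro t s n ht h1 h2
    have : vv C t = s := by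
      unfold vv
      rw [← h2]; field_simp; ring
    unfold Phi
    refine Finset.sum_congr rfl fun U _ => ?_
    rw [hk U t s n, h1, this, mul_assoc]
  set v1 := √(T ^ 2 - C) with hv1
  set x2 := √C with hx2
  have e1 : v1 ^ 2 = T ^ 2 - C := Real.sq_sqrt hD0
  have e2 : x2 ^ 2 = C := Real.sq_sqrt hC0.le
  have p1 : 0 ≤ v1 := Real.sqrt_nonneg _
  have p2 : 0 < x2 := Real.sqrt_pos.mpr hC0
  have q1 : v1 < T := by
    by_contra h
    have := pow_le_pow_left₀ hT0.le (not_lt.mp h) 2
    linarith
  have q2 : N ≤ v1 := Real.le_sqrt_of_sq_le hD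
  have q3 : x ≤ x2 := Real.le_sqrt_of_sq_le (by rw [hC]; have := mul_nonneg hx.le hv; linarith)
  have q4 : x2 ≤ T := by
    by_contra h
    have := pow_lt_pow_left₀ (not_le.mp h) hT0.le (two_ne_zero)
    linarith
  have hm := nice_max C _ hf (T - v1) x x2 (by linarith) (by linarith) q3 (fun t h1 h2 => by
    have ht : 0 < t := by linarith
    have := pow_lt_pow_left₀ h2 ht.le (two_ne_zero)
    unfold vv
    exact div_pos (by linarith) (by positivity))
  beta_reduce at hm
  rw [hval x v N hx rfl rfl, hval (T - v1) v1 v1 (by linarith) (by ring) (by linarith),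
    hval x2 0 (T - x2) p2 (by ring) (by linarith)] at hm
  rcases hm with hm | hm
  · exact ⟨T - v1, T - v1, v1, by linarith, le_rfl, p1, by ring, by linarith, hm⟩
  · rw [Phi_deg G c x2 x2 0 _ (mul_zero _)] at hm
    exact ⟨0, x2, T - x2, le_rfl, p2.le, by linarith, by ring, by linarith, hm⟩

theorem four (G : SimpleGraph V) (c : Finset V → ℝ) (hc : ∀ U, 0 ≤ c U) (u M v N : ℝ)
    (hu : 0 ≤ u) (huM : u ≤ M) (hv : 0 ≤ v) (hvN : v ≤ N) :
    ∃ u' M' N', 0 ≤ u' ∧ u' ≤ M' ∧ 0 ≤ N' ∧ M' + N' = M + N ∧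
      M' ^ 2 + 2 * u' * N' = M ^ 2 + 2 * u * v ∧ Phi G c u M v N ≤ Phi G c u' M' N' N' := by
  by_cases h0 : u * v = 0
  · refine ⟨0, M, N, le_rfl, hu.trans huM, hv.trans hvN, rfl, by linarith,
      (Phi_deg G c u M v N h0).le⟩
  have hu0 : 0 < u := lt_of_le_of_ne hu fun h => h0 (by rw [← h, zero_mul])
  have hv0 : 0 < v := lt_of_le_of_ne hv fun h => h0 (by rw [← h, mul_zero])
  have hM : 0 < M := by linarith
  have hN : 0 < N := by linarith
  have hp : 0 < u * v := mul_pos hu0 hv0
  have h1 : u * v / N ≤ u := by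
    rw [div_le_iff₀ hN]; exact mul_le_mul_of_nonneg_left hvN hu
  obtain ⟨a, l, ha, hl, hal, he⟩ := (Convex.mem_Icc (h1.trans huM)).mp ⟨h1, huM⟩
  have ha' : a = 1 - l := by linarith
  have h2 : Phi G c u M v N ≤ l * Phi G c M M (u * v / M) N +
      (1 - l) * Phi G c (u * v / N) M N N := by
    unfold Phi
    rw [Finset.mul_sum, Finset.mul_sum, ← Finset.sum_add_distrib]
    refine Finset.sum_le_sum fun U _ => ?_
    have := move1 G U (u * v) u M N l hp hM hN hl (by linarith) (by rw [← ha']; linarith)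
    rw [mul_div_cancel_left₀ v hu0.ne'] at this
    have := mul_le_mul_of_nonneg_left this (hc U)
    linarith
  rcases le_total (Phi G c M M (u * v / M) N) (Phi G c (u * v / N) M N N) with h | h
  · refine ⟨u * v / N, M, N, by positivity, h1.trans huM, hN.le, rfl, by field_simp, ?_⟩
    have := mul_le_mul_of_nonneg_left h hl
    linarith
  · obtain ⟨u', M', N', a1, a2, a3, a4, a5, a6⟩ := move2 G c hc M (u * v / M) N hM
      (by positivity) (by
        rw [div_le_iff₀ hM]
        have := mul_le_mul huM hvN hv hM.le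
        linarith)
    refine ⟨u', M', N', a1, a2, a3, a4, by rw [a5]; field_simp, le_trans ?_ a6⟩
    have := mul_le_mul_of_nonneg_left h ha
    rw [ha'] at this
    linarith

theorem reindex (c : Finset V → ℝ) (hc : ∀ U, 0 ≤ c U) (k : Finset V → Finset V → ℝ)
    (hk : ∀ U S, 0 ≤ k U S) : ∃ c' : Finset V → ℝ, (∀ U, 0 ≤ c' U) ∧ ∀ t : Finset V → ℝ,
      ∑ U, c U * ∑ S ∈ U.powerset, k U S * t (U \ S) = ∑ W, c' W * t W := by
  refine ⟨fun W => ∑ U, ∑ S ∈ U.powerset, if U \ S = W then c U * k U S else 0,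
    fun W => Finset.sum_nonneg fun U _ => Finset.sum_nonneg fun S _ => ?_, fun t => ?_⟩
  · split_ifs
    · exact mul_nonneg (hc U) (hk U S)
    · exact le_rfl
  · simp only [Finset.sum_mul]
    rw [Finset.sum_comm]
    refine Finset.sum_congr rfl fun U _ => ?_
    rw [Finset.sum_comm, Finset.mul_sum]
    refine Finset.sum_congr rfl fun S _ => ?_
    simp [mul_assoc]

variable {X : Type} [Fintype X] [Nonempty X]

noncomputable def ee (A : X → X → Prop) (w : X → ℝ) : ℝ :=
  ∑ x, ∑ y, w x * w y * if A x y then 1 else 0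

theorem ee_add (A : X → X → Prop) (w : X → ℝ) (z : X) (r : ℝ) :
    ee A (fun x => (if x = z then r else 0) + w x) =
      r * r * (if A z z then 1 else 0) + r * (∑ y, w y * if A z y then 1 else 0) +
        r * (∑ y, w y * if A y z then 1 else 0) + ee A w := by
  unfold ee
  simp only [add_mul, mul_add, Finset.sum_add_distrib, Finset.mul_sum]
  have e1 : ∑ x, ∑ y, ((if x = z then r else 0) * (if y = z then r else 0) *
      if A x y then (1 : ℝ) else 0) = r * r * (if A z z then 1 else 0) := by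
    rw [Finset.sum_eq_single z (by intro x _ h; simp [h]) (by simp),
      Finset.sum_eq_single z (by intro x _ h; simp [h]) (by simp)]
    simp
  have e2 : ∑ x, ∑ y, ((if x = z then r else 0) * w y * if A x y then (1 : ℝ) else 0) =
      ∑ y, r * (w y * if A z y then 1 else 0) := by
    rw [Finset.sum_eq_single z (by intro x _ h; simp [h]) (by simp)]
    simp
  have e3 : ∑ x, ∑ y, (w x * (if y = z then r else 0) * if A x y then (1 : ℝ) else 0) =
      ∑ y, r * (w y * if A y z then 1 else 0) := by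
    refine Finset.sum_congr rfl fun x _ => ?_
    rw [Finset.sum_eq_single z (by intro x _ h; simp [h]) (by simp)]
    simp [mul_comm]
  rw [e1, e2, e3]
  ring

theorem threshold_aux (G : SimpleGraph V) (A : X → X → Prop) (ρ : X → ℕ)
    (hs : ∀ x y, A x y → A y x) (hA : ∀ x y x', A x y → ρ x' ≤ ρ x → A x' y) (S : Finset X) :
    ∀ w : X → ℝ, (∀ x, 0 ≤ w x) → (∀ x, x ∉ S → w x = 0) → ∀ c : Finset V → ℝ, (∀ U, 0 ≤ c U) →
      ∃ u M N : ℝ, 0 ≤ u ∧ u ≤ M ∧ 0 ≤ N ∧ M + N = ∑ x, w x ∧ M ^ 2 + 2 * u * N = ee A w ∧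
        ∑ U, c U * tt G A U w ≤ Phi G c u M N N := by
  induction S using Finset.strongInduction with
  | H S ih =>
  intro w hw hS c hc
  rcases S.eq_empty_or_nonempty with h | h
  · have hw0 : w = fun _ => 0 := funext fun x => hS x (by simp [h])
    refine ⟨0, 0, 0, le_rfl, le_rfl, le_rfl, by simp [hw0], by simp [hw0, ee], le_of_eq ?_⟩
    unfold Phi FF
    refine Finset.sum_congr rfl fun U _ => ?_
    have : (![0, 0 - 0, 0, 0 - 0] : Fin 4 → ℝ) = fun _ => 0 := by
      funext x; fin_cases x <;> simp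
    rw [this, hw0, tt_zero, tt_zero]
  obtain ⟨lo, hlo, hlo'⟩ := Finset.exists_min_image S ρ h
  obtain ⟨hi, hhi, hhi'⟩ := Finset.exists_max_image S ρ h
  have dec : ∀ z : X, w = fun x => (if x = z then w z else 0) + (if x = z then 0 else w x) := by
    intro z; funext x
    by_cases h : x = z <;> simp [h]
  have p1 : ∀ z x : X, 0 ≤ if x = z then 0 else w x := fun z x => by
    split_ifs
    · exact le_rfl
    · exact hw x
  have p2 : ∀ z x : X, x ∉ S.erase z → (if x = z then 0 else w x) = 0 := fun z x hx => by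
    split_ifs with h
    · rfl
    · exact hS x fun h' => hx (Finset.mem_erase.mpr ⟨h, h'⟩)
  have p3 : ∀ z ∈ S, ∀ x : X, (x = z ∨ (if x = z then 0 else w x) ≠ 0) → x ∈ S := by
    intro z hz x hx
    by_contra h
    rcases hx with hx | hx
    · exact h (hx ▸ hz)
    · exact hx (p2 z x fun h' => h (Finset.mem_of_mem_erase h'))
  have p4 : ∀ z, ∑ x, w x = w z + ∑ x, if x = z then 0 else w x := fun z => by
    conv_lhs => rw [dec z]
    simp [Finset.sum_add_distrib]
  by_cases hd : A lo hi
  · have hz : ∀ x, (x = lo ∨ (if x = lo then 0 else w x) ≠ 0) → A lo x ∧ A x lo := fun x hx => by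
      have := hA hi lo x (hs _ _ hd) (hhi' x (p3 lo hlo x hx))
      exact ⟨hs _ _ this, this⟩
    obtain ⟨c', hc', hc''⟩ := reindex c hc (fun _ S => w lo ^ S.card)
      (fun _ _ => pow_nonneg (hw lo) _)
    obtain ⟨u, M, N, a1, a2, a3, a4, a5, a6⟩ := ih (S.erase lo) (Finset.erase_ssubset hlo)
      (fun x => if x = lo then 0 else w x) (p1 lo) (p2 lo) c' hc'
    refine ⟨u + w lo, M + w lo, N, add_nonneg a1 (hw lo), by linarith, a3,
      by rw [p4 lo]; linarith, ?_, ?_⟩
    · conv_rhs => rw [dec lo]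
      rw [ee_add, if_pos (hz lo (Or.inl rfl)).1, ← a5]
      have b1 : (∑ y, (if y = lo then 0 else w y) * if A lo y then 1 else 0) = M + N := by
        rw [a4]
        refine Finset.sum_congr rfl fun y _ => ?_
        by_cases h : (if y = lo then 0 else w y) = 0
        · rw [h, zero_mul]
        · rw [if_pos (hz y (Or.inr h)).1, mul_one]
      have b2 : (∑ y, (if y = lo then 0 else w y) * if A y lo then 1 else 0) = M + N := by
        rw [a4]
        refine Finset.sum_congr rfl fun y _ => ?_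
        by_cases h : (if y = lo then 0 else w y) = 0
        · rw [h, zero_mul]
        · rw [if_pos (hz y (Or.inr h)).2, mul_one]
      rw [b1, b2]; ring
    · have b1 : ∀ U, tt G A U w = ∑ S ∈ U.powerset, w lo ^ S.card *
          tt G A (U \ S) (fun x => if x = lo then 0 else w x) := fun U => by
        conv_lhs => rw [dec lo]
        exact dom_expand G A U _ lo _ hz
      have b2 : ∀ U, FF G U (u + w lo) (M + w lo) N N = ∑ S ∈ U.powerset, w lo ^ S.card *
          FF G (U \ S) u M N N := fun U => by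
        unfold FF
        rw [← dom_expand G A4 U _ 0 (w lo) (by
          intro x hx
          fin_cases x <;> simp [A4] at hx ⊢)]
        congr 1
        funext x
        fin_cases x <;> simp [add_comm]
      unfold Phi at a6 ⊢
      simp only [b1, b2]
      rw [hc'' (fun W => tt G A W (fun x => if x = lo then 0 else w x)),
        hc'' (fun W => FF G W u M N N)]
      exact a6
  · have hz : ∀ x, (x = hi ∨ (if x = hi then 0 else w x) ≠ 0) → ¬ A hi x ∧ ¬ A x hi :=
      fun x hx => by
        have : ¬ A x hi := fun h => hd (hA x hi lo h (hlo' x (p3 hi hhi x hx)))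
        exact ⟨fun h => this (hs _ _ h), this⟩
    obtain ⟨c', hc', hc''⟩ := reindex c hc (fun U S => isoc G U S * w hi ^ S.card)
      (fun _ _ => mul_nonneg (by unfold isoc; split_ifs <;> norm_num) (pow_nonneg (hw hi) _))
    obtain ⟨u, M, N, a1, a2, a3, a4, a5, a6⟩ := ih (S.erase hi) (Finset.erase_ssubset hhi)
      (fun x => if x = hi then 0 else w x) (p1 hi) (p2 hi) c' hc'
    obtain ⟨u', M', N', d1, d2, d3, d4, d5, d6⟩ := four G c hc u M N (N + w hi) a1 a2 a3
      (by linarith [hw hi])
    refine ⟨u', M', N', d1, d2, d3, by rw [p4 hi]; linarith, ?_, le_trans ?_ d6⟩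
    · conv_rhs => rw [dec hi]
      rw [ee_add, if_neg (hz hi (Or.inl rfl)).1, ← a5, d5]
      have b1 : (∑ y, (if y = hi then 0 else w y) * if A hi y then 1 else 0) = 0 := by
        refine Finset.sum_eq_zero fun y _ => ?_
        by_cases h : (if y = hi then 0 else w y) = 0
        · rw [h, zero_mul]
        · rw [if_neg (hz y (Or.inr h)).1, mul_zero]
      have b2 : (∑ y, (if y = hi then 0 else w y) * if A y hi then 1 else 0) = 0 := by
        refine Finset.sum_eq_zero fun y _ => ?_
        by_cases h : (if y = hi then 0 else w y) = 0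
        · rw [h, zero_mul]
        · rw [if_neg (hz y (Or.inr h)).2, mul_zero]
      rw [b1, b2]; ring
    · have b1 : ∀ U, tt G A U w = ∑ S ∈ U.powerset, (isoc G U S * w hi ^ S.card) *
          tt G A (U \ S) (fun x => if x = hi then 0 else w x) := fun U => by
        conv_lhs => rw [dec hi]
        exact iso_expand G A U _ hi _ hz
      have b2 : ∀ U, FF G U u M N (N + w hi) = ∑ S ∈ U.powerset,
          (isoc G U S * w hi ^ S.card) * FF G (U \ S) u M N N := fun U => by
        unfold FF
        rw [← iso_expand G A4 U _ 3 (w hi) (by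
          intro x _
          fin_cases x <;> simp [A4])]
        congr 1
        funext x
        fin_cases x <;> simp
      unfold Phi at a6 ⊢
      simp only [b1, b2]
      rw [hc'' (fun W => tt G A W (fun x => if x = hi then 0 else w x)),
        hc'' (fun W => FF G W u M N N)]
      exact a6

theorem threshold (G : SimpleGraph V) (A : X → X → Prop) (ρ : X → ℕ)
    (hs : ∀ x y, A x y → A y x) (hA : ∀ x y x', A x y → ρ x' ≤ ρ x → A x' y)
    (w : X → ℝ) (hw : ∀ x, 0 ≤ w x) :
    ∃ u M N : ℝ, 0 ≤ u ∧ u ≤ M ∧ 0 ≤ N ∧ M + N = ∑ x, w x ∧ M ^ 2 + 2 * u * N = ee A w ∧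
      tt G A Finset.univ w ≤ FF G Finset.univ u M N N := by
  obtain ⟨u, M, N, a1, a2, a3, a4, a5, a6⟩ := threshold_aux G A ρ hs hA Finset.univ w hw
    (by simp) (fun U => if U = Finset.univ then 1 else 0) (fun U => by split_ifs <;> norm_num)
  refine ⟨u, M, N, a1, a2, a3, a4, a5, ?_⟩
  simpa [Phi] using a6

end Pool.Agent.H.MP_35cd17_co
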