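import Pool.Agent.H.MP_35cd17_co.D

set_option autoImplicit false
set_option linter.unusedSectionVars false
open Finset

namespace Pool.Agent.H.MP_35cd17_co

open Classical

variable {V : Type} [Fintype V] [DecidableEq V] {X : Type} [Fintype X] [Nonempty X]

theorem tt_univ (G : SimpleGraph V) (A : X → X → Prop) (w : X → ℝ) :
    tt G A Finset.univ w = ∑ φ : V → X, ind G A Finset.univ φ * ∏ v, w (φ v) := by
  simp [tt]

theorem push_tt {Y : Type} [Fintype Y] [Nonempty Y] [DecidableEq Y] (G : SimpleGraph V) (A : Y → Y → Prop)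
    (π : X → Y) (w : X → ℝ) (w0 : Y → ℝ) (h : ∀ y, w0 y = ∑ x, if π x = y then w x else 0) :
    tt G (fun a b => A (π a) (π b)) Finset.univ w = tt G A Finset.univ w0 := by
  rw [tt_univ, tt_univ]
  have e : ∀ ψ : V → Y, ∏ v, w0 (ψ v) =
      ∑ φ : V → X, if (fun v => π (φ v)) = ψ then ∏ v, w (φ v) else 0 := by
    intro ψ
    simp only [h]
    rw [Finset.prod_univ_sum, Fintype.piFinset_univ]
    refine Finset.sum_congr rfl fun φ _ => ?_
    split_ifs with h1
    · exact Finset.prod_congr rfl fun v _ => if_pos (congrFun h1 v)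
    · obtain ⟨v, hv⟩ := Function.ne_iff.mp h1
      exact Finset.prod_eq_zero (Finset.mem_univ v) (if_neg hv)
  simp only [e, Finset.mul_sum]
  rw [Finset.sum_comm]
  refine Finset.sum_congr rfl fun φ _ => ?_
  rw [Finset.sum_eq_single (fun v => π (φ v)) (by intro ψ _ h; simp [h.symm]) (by simp)]
  simp [ind]

theorem push_ee {Y : Type} [Fintype Y] [Nonempty Y] [DecidableEq Y] (A : Y → Y → Prop)
    (π : X → Y) (w : X → ℝ) (w0 : Y → ℝ) (h : ∀ y, w0 y = ∑ x, if π x = y then w x else 0) :
    ee (fun a b => A (π a) (π b)) w = ee A w0 := by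
  have key : ∀ f : Y → ℝ, ∑ y, w0 y * f y = ∑ x, w x * f (π x) := by
    intro f
    simp only [h, Finset.sum_mul]
    rw [Finset.sum_comm]
    refine Finset.sum_congr rfl fun x _ => ?_
    rw [Finset.sum_eq_single (π x) (by intro y _ h; simp [h.symm]) (by simp)]
    simp
  unfold ee
  simp only [mul_assoc, ← Finset.mul_sum]
  rw [key]
  refine Finset.sum_congr rfl fun x _ => ?_
  rw [key]

theorem mu_pos : 0 < mu X := by
  unfold mu
  have : 0 < Fintype.card X := Fintype.card_pos
  positivity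

theorem pair (E : X → X → Prop) (a b : V) (hab : a ≠ b) :
    ∑ φ : V → X, (if E (φ a) (φ b) then 1 else 0) * ∏ _v : V, mu X = ee E (fun _ => mu X) := by
  have e : ∀ φ : V → X, (if E (φ a) (φ b) then (1 : ℝ) else 0) * ∏ _v : V, mu X =
      ∑ x, ∑ y, (∏ v, (mu X * (if v = a → φ v = x then 1 else 0) *
        (if v = b → φ v = y then 1 else 0))) * if E x y then 1 else 0 := by
    intro φ
    rw [Finset.sum_eq_single (φ a), Finset.sum_eq_single (φ b), mul_comm]
    · congr 1
      refine Finset.prod_congr rfl fun v _ => ?_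
      rw [if_pos (fun h => by rw [h]), if_pos (fun h => by rw [h]), mul_one, mul_one]
    · intro y _ hy
      rw [Finset.prod_eq_zero (Finset.mem_univ b) (by simp [hy.symm]), zero_mul]
    · simp
    · intro x _ hx
      refine Finset.sum_eq_zero fun y _ => ?_
      rw [Finset.prod_eq_zero (Finset.mem_univ a) (by simp [hx.symm]), zero_mul]
    · simp
  simp only [e]
  rw [Finset.sum_comm]
  unfold ee
  refine Finset.sum_congr rfl fun x _ => ?_
  rw [Finset.sum_comm]
  refine Finset.sum_congr rfl fun y _ => ?_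
  rw [← Finset.sum_mul]
  congr 1
  have h2 := Finset.prod_univ_sum (fun _ : V => (Finset.univ : Finset X))
    (fun v t => mu X * (if v = a → t = x then 1 else 0) * (if v = b → t = y then 1 else 0))
  rw [Fintype.piFinset_univ] at h2
  rw [← h2, Fintype.prod_eq_mul a b hab]
  · simp [hab, hab.symm]
  · intro v hv
    simp only [hv.1, hv.2, false_imp_iff, if_true, mul_one, sum_mu]

theorem ee_nonneg (E : X → X → Prop) : 0 ≤ ee E (fun _ => mu X) :=
  Finset.sum_nonneg fun _ _ => Finset.sum_nonneg fun _ _ =>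
    mul_nonneg (mul_nonneg mu_pos.le mu_pos.le) (by split_ifs <;> norm_num)

noncomputable def bad (E : X → X → Prop) (φ : V → X) : ℝ :=
  ∑ a, ∑ b, if a ≠ b ∧ E (φ a) (φ b) then 1 else 0

theorem bad_nonneg (E : X → X → Prop) (φ : V → X) : 0 ≤ bad E φ :=
  Finset.sum_nonneg fun _ _ => Finset.sum_nonneg fun _ _ => by split_ifs <;> norm_num

theorem bad_one (E : X → X → Prop) (φ : V → X) (a b : V) (h : a ≠ b) (h' : E (φ a) (φ b)) :
    1 ≤ bad E φ := by
  unfold bad
  refine le_trans ?_ (Finset.single_le_sum (fun _ _ => Finset.sum_nonneg fun _ _ => by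
    split_ifs <;> norm_num) (Finset.mem_univ a))
  refine le_trans ?_ (Finset.single_le_sum (fun _ _ => by
    split_ifs <;> norm_num) (Finset.mem_univ b))
  rw [if_pos ⟨h, h'⟩]

theorem bad_sum (E : X → X → Prop) : ∑ φ : V → X, bad E φ * ∏ _v : V, mu X ≤
    (Fintype.card V : ℝ) ^ 2 * ee E (fun _ => mu X) := by
  unfold bad
  simp only [Finset.sum_mul]
  rw [Finset.sum_comm]
  have : (Fintype.card V : ℝ) ^ 2 * ee E (fun _ => mu X) =
      ∑ _a : V, ∑ _b : V, ee E (fun _ => mu X) := by
    simp only [Finset.sum_const, Finset.card_univ, nsmul_eq_mul]; ring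
  rw [this]
  refine Finset.sum_le_sum fun a _ => ?_
  rw [Finset.sum_comm]
  refine Finset.sum_le_sum fun b _ => ?_
  by_cases h : a = b
  · simp only [h, ne_eq, not_true, false_and, if_false, zero_mul, Finset.sum_const_zero]
    exact ee_nonneg E
  · simp only [ne_eq, h, not_false_iff, true_and]
    exact (pair E a b h).le

theorem ind_le_one (G : SimpleGraph V) (A : X → X → Prop) (φ : V → X) :
    0 ≤ ind G A Finset.univ φ ∧ ind G A Finset.univ φ ≤ 1 := by
  unfold ind; split_ifs <;> norm_num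

theorem edit (G : SimpleGraph V) (A T : X → X → Prop) :
    tt G A Finset.univ (fun _ => mu X) ≤ tt G T Finset.univ (fun _ => mu X) +
      (Fintype.card V : ℝ) ^ 2 * ee (fun x y => A x y ∧ ¬ T x y) (fun _ => mu X) := by
  refine le_trans ?_ (add_le_add le_rfl (bad_sum _))
  rw [tt_univ, tt_univ, ← Finset.sum_add_distrib]
  refine Finset.sum_le_sum fun φ _ => ?_
  rw [← add_mul]
  refine mul_le_mul_of_nonneg_right ?_ (Finset.prod_nonneg fun _ _ => mu_pos.le)
  have h0 := bad_nonneg (fun x y => A x y ∧ ¬ T x y) φ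
  have h1 := ind_le_one G T φ
  by_cases hA : ∀ a ∈ Finset.univ, ∀ b ∈ Finset.univ, G.Adj a b → A (φ a) (φ b)
  · by_cases hT : ∀ a ∈ Finset.univ, ∀ b ∈ Finset.univ, G.Adj a b → T (φ a) (φ b)
    · unfold ind
      rw [if_pos hA, if_pos hT]; linarith
    · push Not at hT
      obtain ⟨a, ha, b, hb, hab, h⟩ := hT
      have := bad_one (fun x y => A x y ∧ ¬ T x y) φ a b hab.ne ⟨hA a ha b hb hab, h⟩
      have := ind_le_one G A φ
      linarith
  · unfold ind at h1 ⊢
    rw [if_neg hA]; linarith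

def kel (A : X → X → Prop) (u v : X) (x y : X) : Prop :=
  if x = u ∧ y ≠ u ∧ y ≠ v then A u y ∨ A v y
  else if x = v ∧ y ≠ u ∧ y ≠ v then A u y ∧ A v y
  else if y = u ∧ x ≠ u ∧ x ≠ v then A x u ∨ A x v
  else if y = v ∧ x ≠ u ∧ x ≠ v then A x u ∧ A x v
  else A x y

theorem kel_symm (A : X → X → Prop) (hs : ∀ x y, A x y → A y x) (u v : X) (huv : u ≠ v) :
    ∀ x y, kel A u v x y → kel A u v y x := by
  have hs' : ∀ x y, A x y ↔ A y x := fun x y => ⟨hs x y, hs y x⟩
  intro x y
  unfold kel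
  by_cases h1 : x = u <;> by_cases h2 : x = v <;> by_cases h3 : y = u <;> by_cases h4 : y = v <;>
    simp_all

theorem kel_pt (G : SimpleGraph V) (A : X → X → Prop) (u v : X) (huv : u ≠ v) (φ : V → X)
    (h1 : ∀ a, φ a ≠ v) (h2 : ∀ a b, a ≠ b → φ a = u → φ b ≠ u) :
    ind G A Finset.univ φ + ind G A Finset.univ (fun a => Equiv.swap u v (φ a)) ≤
      ind G (kel A u v) Finset.univ φ +
        ind G (kel A u v) Finset.univ (fun a => Equiv.swap u v (φ a)) := by
  have sw : ∀ a, φ a ≠ u → Equiv.swap u v (φ a) = φ a := fun a h =>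
    Equiv.swap_apply_of_ne_of_ne h (h1 a)
  have c1 : ∀ a b, a ≠ b → (A (φ a) (φ b) ∨ A (Equiv.swap u v (φ a)) (Equiv.swap u v (φ b))) →
      kel A u v (φ a) (φ b) := by
    intro a b hab h
    have := h1 a
    have := h1 b
    unfold kel
    by_cases ha : φ a = u
    · have hb := h2 a b hab ha
      rw [sw b hb, ha, Equiv.swap_apply_left] at h
      simp_all
    · by_cases hb : φ b = u
      · rw [sw a ha, hb, Equiv.swap_apply_left] at h
        simp_all
      · rw [sw a ha, sw b hb] at h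
        simp_all
  have c2 : ∀ a b, a ≠ b → A (φ a) (φ b) → A (Equiv.swap u v (φ a)) (Equiv.swap u v (φ b)) →
      kel A u v (Equiv.swap u v (φ a)) (Equiv.swap u v (φ b)) := by
    intro a b hab h h'
    have := h1 a
    have := h1 b
    have := huv.symm
    unfold kel
    by_cases ha : φ a = u
    · have hb := h2 a b hab ha
      rw [sw b hb, ha, Equiv.swap_apply_left] at h' ⊢
      simp_all
    · by_cases hb : φ b = u
      · rw [sw a ha, hb, Equiv.swap_apply_left] at h' ⊢
        simp_all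
      · rw [sw a ha, sw b hb] at h' ⊢
        simp_all
  have b1 := ind_le_one G (kel A u v) φ
  have b2 := ind_le_one G (kel A u v) (fun a => Equiv.swap u v (φ a))
  by_cases hA : ∀ a ∈ Finset.univ, ∀ b ∈ Finset.univ, G.Adj a b → A (φ a) (φ b) <;>
  by_cases hB : ∀ a ∈ Finset.univ, ∀ b ∈ Finset.univ, G.Adj a b →
    A (Equiv.swap u v (φ a)) (Equiv.swap u v (φ b))
  · unfold ind
    rw [if_pos hA, if_pos hB,
      if_pos (fun a ha b hb hab => c1 a b hab.ne (Or.inl (hA a ha b hb hab))),
      if_pos (fun a ha b hb hab => c2 a b hab.ne (hA a ha b hb hab) (hB a ha b hb hab))]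
  · unfold ind at b2 ⊢
    rw [if_pos hA, if_neg hB,
      if_pos (fun a ha b hb hab => c1 a b hab.ne (Or.inl (hA a ha b hb hab)))]
    linarith
  · unfold ind at b2 ⊢
    rw [if_neg hA, if_pos hB,
      if_pos (fun a ha b hb hab => c1 a b hab.ne (Or.inr (hB a ha b hb hab)))]
    linarith
  · unfold ind at b1 b2 ⊢
    rw [if_neg hA, if_neg hB]
    linarith

theorem kel_tt (G : SimpleGraph V) (A : X → X → Prop) (u v : X) (huv : u ≠ v) :
    tt G A Finset.univ (fun _ => mu X) ≤ tt G (kel A u v) Finset.univ (fun _ => mu X) +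
      (Fintype.card V : ℝ) ^ 2 * (4 * mu X ^ 2) := by
  set E : X → X → Prop := fun x y => (x = u ∨ x = v) ∧ (y = u ∨ y = v) with hE
  have e1 : ee E (fun _ => mu X) = 4 * mu X ^ 2 := by
    have e2 : ∑ x, mu X * (if x = u ∨ x = v then (1 : ℝ) else 0) = 2 * mu X := by
      rw [Fintype.sum_eq_add u v huv (fun x hx => by simp [hx.1, hx.2])]
      simp; ring
    have : ee E (fun _ => mu X) = (∑ x, mu X * (if x = u ∨ x = v then (1 : ℝ) else 0)) *
        ∑ x, mu X * (if x = u ∨ x = v then (1 : ℝ) else 0) := by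
      rw [Finset.sum_mul_sum]
      refine Finset.sum_congr rfl fun x _ => Finset.sum_congr rfl fun y _ => ?_
      by_cases h1 : x = u ∨ x = v <;> by_cases h2 : y = u ∨ y = v <;> simp [hE, h1, h2]
    rw [this, e2]; ring
  have hb := bad_sum (V := V) E
  rw [e1] at hb
  have inv : ∀ f : (V → X) → ℝ, ∑ φ : V → X, f (fun a => Equiv.swap u v (φ a)) = ∑ φ, f φ :=
    fun f => Equiv.sum_comp (Equiv.arrowCongr (Equiv.refl V) (Equiv.swap u v)) f
  have pt : ∀ φ : V → X,
      ind G A Finset.univ φ + ind G A Finset.univ (fun a => Equiv.swap u v (φ a)) ≤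
      ind G (kel A u v) Finset.univ φ +
        ind G (kel A u v) Finset.univ (fun a => Equiv.swap u v (φ a)) + 2 * bad E φ := by
    intro φ
    have h0 := bad_nonneg E φ
    by_cases hs : ∃ a b, a ≠ b ∧ E (φ a) (φ b)
    · obtain ⟨a, b, hab, h⟩ := hs
      have := bad_one E φ a b hab h
      have := ind_le_one G A φ
      have := ind_le_one G A (fun a => Equiv.swap u v (φ a))
      have := ind_le_one G (kel A u v) φ
      have := ind_le_one G (kel A u v) (fun a => Equiv.swap u v (φ a))
      linarith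
    · by_cases h1 : ∀ a, φ a ≠ v
      · have := kel_pt G A u v huv φ h1
          (fun a b hab ha hb => hs ⟨a, b, hab, Or.inl ha, Or.inl hb⟩)
        linarith
      · push Not at h1
        obtain ⟨g, hg⟩ := h1
        have := kel_pt G A u v huv (fun a => Equiv.swap u v (φ a)) (fun a ha => by
            have ha' : φ a = u := by
              rw [Equiv.swap_apply_eq_iff, Equiv.swap_apply_right] at ha; exact ha
            have hag : a ≠ g := fun h => huv (by rw [← ha', h, hg])
            exact hs ⟨a, g, hag, Or.inl ha', Or.inr hg⟩)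
          (fun a b hab ha hb => by
            rw [Equiv.swap_apply_eq_iff, Equiv.swap_apply_left] at ha hb
            exact hs ⟨a, b, hab, Or.inr ha, Or.inr hb⟩)
        simp only [Equiv.swap_apply_self] at this
        linarith
  have hP : 0 ≤ ∏ _v : V, mu X := Finset.prod_nonneg fun _ _ => mu_pos.le
  have := Finset.sum_le_sum fun φ (_ : φ ∈ Finset.univ) => mul_le_mul_of_nonneg_right (pt φ) hP
  simp only [add_mul, Finset.sum_add_distrib, mul_assoc, ← Finset.mul_sum] at this
  rw [inv (fun φ => ind G A Finset.univ φ * ∏ _v : V, mu X),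
    inv (fun φ => ind G (kel A u v) Finset.univ φ * ∏ _v : V, mu X)] at this
  rw [tt_univ, tt_univ]
  linarith

noncomputable def dg (A : X → X → Prop) (x : X) : ℝ := ∑ y, if A x y then 1 else 0

noncomputable def bb (A : X → X → Prop) (u v : X) : ℝ :=
  ∑ y, if y ≠ u ∧ y ≠ v ∧ A v y ∧ ¬ A u y then 1 else 0

theorem kel_u (A : X → X → Prop) (u v : X) (huv : u ≠ v) :
    dg (kel A u v) u = dg A u + bb A u v := by
  unfold dg bb
  rw [← Finset.sum_add_distrib]
  refine Finset.sum_congr rfl fun y _ => ?_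
  unfold kel
  by_cases h3 : y = u <;> by_cases h4 : y = v <;> by_cases h5 : A u y <;> by_cases h6 : A v y <;>
    simp_all

theorem kel_v (A : X → X → Prop) (u v : X) (huv : u ≠ v) :
    dg (kel A u v) v = dg A v - bb A u v := by
  unfold dg bb
  rw [← Finset.sum_sub_distrib]
  refine Finset.sum_congr rfl fun y _ => ?_
  have := huv.symm
  unfold kel
  by_cases h3 : y = u <;> by_cases h4 : y = v <;> by_cases h5 : A u y <;> by_cases h6 : A v y <;>
    simp_all

theorem kel_o (A : X → X → Prop) (u v : X) (huv : u ≠ v) (x : X) (h1 : x ≠ u) (h2 : x ≠ v) :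
    dg (kel A u v) x = dg A x := by
  unfold dg
  rw [← sub_eq_zero, ← Finset.sum_sub_distrib, Fintype.sum_eq_add u v huv]
  · have := huv.symm
    unfold kel
    by_cases h5 : A x u <;> by_cases h6 : A x v <;> simp_all
  · intro y hy
    unfold kel
    simp [h1, h2, hy.1, hy.2]

theorem kel_sum (A : X → X → Prop) (u v : X) (huv : u ≠ v) (f : ℝ → ℝ) :
    ∑ x, f (dg (kel A u v) x) = ∑ x, f (dg A x) +
      (f (dg A u + bb A u v) - f (dg A u) + (f (dg A v - bb A u v) - f (dg A v))) := by
  rw [← sub_eq_iff_eq_add', ← Finset.sum_sub_distrib, Fintype.sum_eq_add u v huv, kel_u A u v huv,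
    kel_v A u v huv]
  intro x hx
  rw [kel_o A u v huv x hx.1 hx.2, sub_self]

theorem dg_bound (A : X → X → Prop) (x : X) : 0 ≤ dg A x ∧ dg A x ≤ Fintype.card X := by
  refine ⟨Finset.sum_nonneg fun _ _ => by split_ifs <;> norm_num, ?_⟩
  refine le_trans (Finset.sum_le_sum (g := fun _ => (1 : ℝ)) fun _ _ => by
    split_ifs <;> norm_num) (by simp)

theorem ee_dg (A : X → X → Prop) : ee A (fun _ => mu X) = mu X ^ 2 * ∑ x, dg A x := by
  unfold ee dg
  simp only [Finset.mul_sum, sq]

theorem nested (G : SimpleGraph V) (A0 : X → X → Prop) (hs : ∀ x y, A0 x y → A0 y x)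
    (η L : ℝ) (hη : 0 < η) (hL : 0 ≤ L)
    (hL2 : 2 * (Fintype.card V : ℝ) ^ 2 * Fintype.card X ≤ η * L ^ 2) :
    ∃ A : X → X → Prop, (∀ x y, A x y → A y x) ∧
      ee A (fun _ => mu X) = ee A0 (fun _ => mu X) ∧
      tt G A0 Finset.univ (fun _ => mu X) ≤ tt G A Finset.univ (fun _ => mu X) + η ∧
      ∀ u v, u ≠ v → dg A v ≤ dg A u →
        (∑ y, if A v y ∧ ¬ A u y then (1 : ℝ) else 0) ≤ L + 2 := by
  obtain ⟨A, hA, hmax⟩ := Finset.exists_max_image (Finset.univ.filter fun A : X → X → Prop =>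
    (∀ x y, A x y → A y x) ∧ ∑ x, dg A x = ∑ x, dg A0 x)
    (fun A => tt G A Finset.univ (fun _ => mu X) + η * mu X ^ 3 * ∑ x, dg A x ^ 2)
    ⟨A0, by simpa using hs⟩
  obtain ⟨hA1, hA2⟩ := (Finset.mem_filter.mp hA).2
  have hm : mu X * Fintype.card X = 1 := by
    have := sum_mu (X := X)
    simpa [mul_comm] using this
  have hm0 := mu_pos (X := X)
  refine ⟨A, hA1, by rw [ee_dg, ee_dg, hA2], ?_, fun u v huv hd => ?_⟩
  · have h1 := hmax A0 (by simpa using hs)
    have h2 : 0 ≤ η * mu X ^ 3 * ∑ x, dg A0 x ^ 2 := by positivity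
    have h3 : ∑ x, dg A x ^ 2 ≤ (Fintype.card X : ℝ) ^ 3 := by
      refine le_trans (Finset.sum_le_sum (g := fun _ => (Fintype.card X : ℝ) ^ 2) fun x _ =>
        pow_le_pow_left₀ (dg_bound A x).1 (dg_bound A x).2 2) (le_of_eq ?_)
      simp only [Finset.sum_const, Finset.card_univ, nsmul_eq_mul]; ring
    have h4 := mul_le_mul_of_nonneg_left h3 (show 0 ≤ η * mu X ^ 3 by positivity)
    have h5 : η * mu X ^ 3 * (Fintype.card X : ℝ) ^ 3 = η := by
      rw [mul_assoc, ← mul_pow, hm]; simp
    linarith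
  · have h1 := hmax (kel A u v) (Finset.mem_filter.mpr ⟨Finset.mem_univ _,
      kel_symm A hA1 u v huv, by
        have := kel_sum A u v huv id
        simp only [id] at this
        rw [this, hA2]; ring⟩)
    have h2 := kel_sum A u v huv (fun t => t ^ 2)
    have h3 := kel_tt G A u v huv
    have hb : 0 ≤ bb A u v := Finset.sum_nonneg fun _ _ => by split_ifs <;> norm_num
    beta_reduce at h1 h2
    rw [h2] at h1
    have h4 : 0 ≤ η * mu X ^ 3 * (bb A u v * (dg A u - dg A v)) :=
      mul_nonneg (by positivity) (mul_nonneg hb (sub_nonneg.mpr hd))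
    have h5 : η * mu X ^ 3 * bb A u v ^ 2 ≤ 2 * (Fintype.card V : ℝ) ^ 2 * mu X ^ 2 := by
      nlinarith
    have h6 : 2 * (Fintype.card V : ℝ) ^ 2 * mu X ^ 2 ≤ η * mu X ^ 3 * L ^ 2 := by
      have := mul_le_mul_of_nonneg_left hL2 (show 0 ≤ mu X ^ 3 by positivity)
      have e : mu X ^ 3 * (2 * (Fintype.card V : ℝ) ^ 2 * Fintype.card X) =
          2 * (Fintype.card V : ℝ) ^ 2 * mu X ^ 2 * (mu X * Fintype.card X) := by ring
      rw [e, hm] at this
      linarith
    have h7 : bb A u v ^ 2 ≤ L ^ 2 :=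
      le_of_mul_le_mul_left (h5.trans h6) (by positivity)
    have h8 : bb A u v ≤ L := (pow_le_pow_iff_left₀ hb hL two_ne_zero).mp h7
    have h9 : (∑ y, if A v y ∧ ¬ A u y then (1 : ℝ) else 0) ≤ bb A u v +
        ((∑ y, if y = u then (1 : ℝ) else 0) + ∑ y, if y = v then (1 : ℝ) else 0) := by
      unfold bb
      rw [← Finset.sum_add_distrib, ← Finset.sum_add_distrib]
      refine Finset.sum_le_sum fun y _ => ?_
      have := huv.symm
      by_cases h3 : y = u <;> by_cases h4 : y = v <;> by_cases h5 : A u y <;>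
        by_cases h6 : A v y <;> simp_all
    simp only [Finset.sum_ite_eq', Finset.mem_univ, if_true] at h9
    linarith

end Pool.Agent.H.MP_35cd17_co
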