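import Pool.Agent.H.MP_35cd17_co.E

set_option autoImplicit false
set_option linter.unusedSectionVars false
open Finset

namespace Pool.Agent.H.MP_35cd17_co

open Classical

variable {V : Type} [Fintype V] [DecidableEq V]

theorem cnt (n m : ℕ) (h : m ≤ n) : (∑ x : Fin n, if x.val < m then (1 : ℝ) else 0) = m := by
  rw [Finset.sum_boole, Fin.card_filter_val_lt, min_eq_right h]

theorem row (n D : ℕ) (P : Fin n → Prop) (hD : (∑ x, if P x then (1 : ℝ) else 0) = D)
    (hn : D ≤ n) :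
    (∑ x, if ¬ P x ∧ x.val < D then (1 : ℝ) else 0) =
      (∑ x, if P x ∧ ¬ x.val < D then (1 : ℝ) else 0) ∧
    (∑ x, if P x ∧ ¬ x.val < D then (1 : ℝ) else 0) ^ 2 ≤
      ∑ x, ∑ y, if x < y ∧ P y ∧ ¬ P x then (1 : ℝ) else 0 := by
  have h1 : (∑ x, if ¬ P x ∧ x.val < D then (1 : ℝ) else 0) =
      (∑ x, if P x ∧ ¬ x.val < D then (1 : ℝ) else 0) := by
    have h2 := cnt n D hn
    rw [← hD, ← sub_eq_zero, ← Finset.sum_sub_distrib] at h2
    rw [← sub_eq_zero, ← Finset.sum_sub_distrib]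
    refine Eq.trans (Finset.sum_congr rfl fun x _ => ?_) h2
    by_cases h3 : P x <;> by_cases h4 : x.val < D <;> simp [h3, h4]
  refine ⟨h1, ?_⟩
  rw [sq]
  nth_rewrite 1 [← h1]
  rw [Finset.sum_mul_sum]
  refine Finset.sum_le_sum fun x _ => Finset.sum_le_sum fun y _ => ?_
  by_cases h3 : ¬ P x ∧ x.val < D
  · by_cases h4 : P y ∧ ¬ y.val < D
    · rw [if_pos h3, if_pos h4, if_pos ⟨Fin.lt_def.mpr (by omega), h4.1, h3.1⟩, mul_one]
    · rw [if_neg h4, mul_zero]; split_ifs <;> norm_num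
  · rw [if_neg h3, zero_mul]; split_ifs <;> norm_num

theorem ee_edit {X : Type} [Fintype X] [Nonempty X] (A T : X → X → Prop) :
    ee A (fun _ => mu X) ≤ ee T (fun _ => mu X) +
      ee (fun x y => A x y ∧ ¬ T x y) (fun _ => mu X) := by
  unfold ee
  rw [← Finset.sum_add_distrib]
  refine Finset.sum_le_sum fun x _ => ?_
  rw [← Finset.sum_add_distrib]
  refine Finset.sum_le_sum fun y _ => ?_
  rw [← mul_add]
  refine mul_le_mul_of_nonneg_left ?_ (mul_nonneg mu_pos.le mu_pos.le)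
  by_cases h1 : A x y <;> by_cases h2 : T x y <;> simp [h1, h2]

theorem approx (G : SimpleGraph V) (n : ℕ) [Nonempty (Fin n)] (A0 : Fin n → Fin n → Prop)
    (hs : ∀ x y, A0 x y → A0 y x) (ε : ℝ) (hε : 0 < ε)
    (h1 : 8 * (Fintype.card V : ℝ) ^ 2 ≤ ε ^ 5 * n) (h2 : 4 ≤ ε ^ 2 * n) :
    ∃ u M N : ℝ, 0 ≤ u ∧ u ≤ M ∧ 0 ≤ N ∧ M + N = 1 ∧
      |M ^ 2 + 2 * u * N - ee A0 (fun _ => mu (Fin n))| ≤ 4 * ε ∧
      tt G A0 Finset.univ (fun _ => mu (Fin n)) ≤ FF G Finset.univ u M N N +
        (ε + (Fintype.card V : ℝ) ^ 2 * (2 * ε)) := by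
  have hn : (0 : ℝ) < n := by
    have : 0 < n := Fin.pos_iff_nonempty.mpr inferInstance
    exact_mod_cast this
  obtain ⟨A, hA, e1, e2, hN⟩ := nested G A0 hs ε (ε ^ 2 * n / 2) hε (by positivity) (by
    rw [Fintype.card_fin]
    have := mul_le_mul_of_nonneg_right h1 hn.le
    nlinarith)
  set σ := Tuple.sort (fun x => - dg A x) with hσ
  have hmono : Monotone ((fun x => - dg A x) ∘ σ) := Tuple.monotone_sort _
  set B : Fin n → Fin n → Prop := fun x y => A (σ x) (σ y) with hB
  have hw : ∀ y, mu (Fin n) = ∑ x, if σ x = y then mu (Fin n) else 0 := fun y => by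
    rw [Finset.sum_eq_single (σ.symm y) (fun x _ h => if_neg fun h' => h (by rw [← h']; simp))
      (by simp)]
    simp
  have b1 : tt G B Finset.univ (fun _ => mu (Fin n)) = tt G A Finset.univ (fun _ => mu (Fin n)) :=
    push_tt G A σ _ _ hw
  have b2 : ee B (fun _ => mu (Fin n)) = ee A (fun _ => mu (Fin n)) := push_ee A σ _ _ hw
  have b3 : ∀ x, dg B x = dg A (σ x) := fun x =>
    Equiv.sum_comp σ (fun y => if A (σ x) y then (1 : ℝ) else 0)
  have hBs : ∀ x y, B x y ↔ B y x := fun x y => ⟨hA _ _, hA _ _⟩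
  set D : Fin n → ℕ := fun z => (Finset.univ.filter (B z)).card with hD
  have d1 : ∀ z, dg B z = D z := fun z => by simp [dg, hD]
  have d2 : ∀ z, D z ≤ n := fun z => (Finset.card_le_univ _).trans (by simp)
  have d3 : ∀ x y, x ≤ y → dg B y ≤ dg B x := fun x y h => by
    have := hmono h
    simp only [Function.comp] at this
    rw [b3, b3]; linarith
  have i1 : ∀ x y : Fin n, (∑ z, if x < y ∧ B z y ∧ ¬ B z x then (1 : ℝ) else 0) ≤ ε ^ 2 * n := by
    intro x y
    by_cases h : x < y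
    · have := hN (σ x) (σ y) (fun h' => h.ne (σ.injective h')) (by
        rw [← b3, ← b3]; exact d3 x y h.le)
      rw [← Equiv.sum_comp σ] at this
      refine le_trans (le_of_eq ?_) (this.trans (by linarith))
      refine Finset.sum_congr rfl fun z _ => ?_
      simp only [h, true_and, hBs z]
      rfl
    · simp only [h, false_and, if_false, Finset.sum_const_zero]
      positivity
  set s : Fin n → ℝ := fun z => ∑ x, if B z x ∧ ¬ x.val < D z then (1 : ℝ) else 0 with hsd
  have r1 := fun z => row n (D z) (B z) (d1 z) (d2 z)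
  have s1 : ∑ z, s z ^ 2 ≤ n * n * (ε ^ 2 * n) := by
    refine le_trans (Finset.sum_le_sum fun z _ => (r1 z).2) ?_
    rw [Finset.sum_comm]
    refine le_trans (Finset.sum_le_sum (g := fun _ => n * (ε ^ 2 * n)) fun x _ => ?_) (by
      simp [mul_assoc])
    rw [Finset.sum_comm]
    exact le_trans (Finset.sum_le_sum (g := fun _ => ε ^ 2 * n) fun y _ => i1 x y) (by simp)
  have s2 : ∑ z, s z ≤ 2 * ε * n ^ 2 := by
    have h3 : ∀ z, ε * n * s z ≤ (ε * n) ^ 2 + s z ^ 2 := fun z => by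
      nlinarith [sq_nonneg (ε * n - s z), sq_nonneg (ε * n), sq_nonneg (s z)]
    have h4 := Finset.sum_le_sum fun z (_ : z ∈ Finset.univ) => h3 z
    rw [← Finset.mul_sum, Finset.sum_add_distrib] at h4
    simp only [Finset.sum_const, Finset.card_univ, Fintype.card_fin, nsmul_eq_mul] at h4
    refine le_of_mul_le_mul_left ?_ (mul_pos hε hn)
    nlinarith
  have hm : mu (Fin n) ^ 2 * (n : ℝ) ^ 2 = 1 := by
    unfold mu; rw [Fintype.card_fin]; field_simp
  have hm0 := mu_pos (X := Fin n)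
  set T : Fin n → Fin n → Prop := fun x y => y.val < D x ∨ x.val < D y with hT
  have t1 : ee (fun x y => B x y ∧ ¬ T x y) (fun _ => mu (Fin n)) ≤ 2 * ε := by
    rw [ee_dg]
    have : ∑ x, dg (fun x y => B x y ∧ ¬ T x y) x ≤ ∑ z, s z := by
      refine Finset.sum_le_sum fun z _ => Finset.sum_le_sum fun x _ => ?_
      by_cases h : B z x ∧ ¬ T z x
      · rw [if_pos h, if_pos ⟨h.1, fun h' => h.2 (Or.inl h')⟩]
      · rw [if_neg h]; split_ifs <;> norm_num
    have := mul_le_mul_of_nonneg_left (this.trans s2) (sq_nonneg (mu (Fin n)))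
    nlinarith
  have t2 : ee (fun x y => T x y ∧ ¬ B x y) (fun _ => mu (Fin n)) ≤ 4 * ε := by
    rw [ee_dg]
    have : ∑ x, dg (fun x y => T x y ∧ ¬ B x y) x ≤ ∑ z, s z + ∑ z, s z := by
      have h3 : ∑ z, s z = ∑ z, ∑ x, if ¬ B z x ∧ x.val < D z then (1 : ℝ) else 0 :=
        Finset.sum_congr rfl fun z _ => (r1 z).1.symm
      rw [h3]
      nth_rewrite 2 [Finset.sum_comm]
      rw [← Finset.sum_add_distrib]
      refine Finset.sum_le_sum fun z _ => ?_
      rw [← Finset.sum_add_distrib]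
      refine Finset.sum_le_sum fun x _ => ?_
      have n1 : (0 : ℝ) ≤ if ¬ B z x ∧ x.val < D z then 1 else 0 := by split_ifs <;> norm_num
      have n2 : (0 : ℝ) ≤ if ¬ B x z ∧ z.val < D x then 1 else 0 := by split_ifs <;> norm_num
      by_cases h4 : T z x ∧ ¬ B z x
      · rw [if_pos h4]
        rcases h4.1 with h5 | h5
        · rw [if_pos ⟨h4.2, h5⟩]; linarith
        · rw [if_pos (show ¬ B x z ∧ z.val < D x from ⟨fun h => h4.2 ((hBs _ _).mp h), h5⟩)]
          linarith
      · rw [if_neg h4]; linarith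
    have := mul_le_mul_of_nonneg_left (this.trans (add_le_add s2 s2)) (sq_nonneg (mu (Fin n)))
    nlinarith
  obtain ⟨u, M, N, a1, a2, a3, a4, a5, a6⟩ := threshold G T Fin.val (fun x y h => h.symm)
    (fun x y x' h hx => by
      have := d3 x' x hx
      rw [d1, d1] at this
      have : D x ≤ D x' := by exact_mod_cast this
      rcases h with h | h
      · exact Or.inl (by omega)
      · exact Or.inr (by omega)) (fun _ => mu (Fin n)) (fun _ => hm0.le)
  refine ⟨u, M, N, a1, a2, a3, by rw [a4, sum_mu], ?_, ?_⟩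
  · rw [a5, ← e1, ← b2]
    have := ee_edit B T
    have := ee_edit T B
    rw [abs_le]
    constructor <;> linarith
  · have := edit G B T
    have := mul_le_mul_of_nonneg_left t1 (sq_nonneg (Fintype.card V : ℝ))
    linarith

theorem approx' (G : SimpleGraph V) (n : ℕ) [Nonempty (Fin n)] (A0 : Fin n → Fin n → Prop)
    (hs : ∀ x y, A0 x y → A0 y x) (ε : ℝ) (hε : 0 < ε) :
    ∃ u M N : ℝ, 0 ≤ u ∧ u ≤ M ∧ 0 ≤ N ∧ M + N = 1 ∧
      |M ^ 2 + 2 * u * N - ee A0 (fun _ => mu (Fin n))| ≤ 4 * ε ∧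
      tt G A0 Finset.univ (fun _ => mu (Fin n)) ≤ FF G Finset.univ u M N N +
        (ε + (Fintype.card V : ℝ) ^ 2 * (2 * ε)) := by
  have hn0 : 0 < n := Fin.pos_iff_nonempty.mpr inferInstance
  have hn : (1 : ℝ) ≤ n := by exact_mod_cast hn0
  obtain ⟨m, hm⟩ := exists_nat_gt (8 * (Fintype.card V : ℝ) ^ 2 / ε ^ 5 + 4 / ε ^ 2)
  have p1 : 0 ≤ 8 * (Fintype.card V : ℝ) ^ 2 / ε ^ 5 := by positivity
  have p2 : 0 < 4 / ε ^ 2 := by positivity
  have hm0 : (0 : ℝ) < m := by linarith
  have hm1 : 0 < m := by exact_mod_cast hm0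
  have hnm : (m : ℝ) ≤ (n * m : ℕ) := by push_cast; nlinarith
  haveI : Nonempty (Fin (n * m)) := ⟨⟨0, Nat.mul_pos hn0 hm1⟩⟩
  set π : Fin (n * m) → Fin n := fun x => (finProdFinEquiv.symm x).1 with hπ
  have hw : ∀ y, mu (Fin n) = ∑ x, if π x = y then mu (Fin (n * m)) else 0 := fun y => by
    rw [← Equiv.sum_comp finProdFinEquiv, Fintype.sum_prod_type]
    simp only [hπ, Equiv.symm_apply_apply]
    rw [Finset.sum_eq_single y (fun x _ h => by simp [h]) (by simp)]
    simp only [if_true, Finset.sum_const, Finset.card_univ, Fintype.card_fin, nsmul_eq_mul, mu]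
    push_cast
    field_simp
  have := approx G (n * m) (fun a b => A0 (π a) (π b)) (fun a b => hs _ _) ε hε (by
      have : 8 * (Fintype.card V : ℝ) ^ 2 / ε ^ 5 ≤ (n * m : ℕ) := by linarith
      rw [div_le_iff₀ (by positivity)] at this
      linarith) (by
      have : 4 / ε ^ 2 ≤ (n * m : ℕ) := by linarith
      rw [div_le_iff₀ (by positivity)] at this
      linarith)
  rw [push_tt G A0 π _ _ hw, push_ee A0 π _ _ hw] at this
  exact this

def A3 (x y : Fin 3) : Prop := A4 x.castSucc y.castSucc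

theorem FF3 (G : SimpleGraph V) (u M N : ℝ) :
    FF G Finset.univ u M N N = tt G A3 Finset.univ ![u, M - u, N] := by
  symm
  refine push_tt G A4 Fin.castSucc _ _ fun y => ?_
  rw [Fin.sum_univ_three]
  fin_cases y
  · show u = u + 0 + 0
    ring
  · show M - u = 0 + (M - u) + 0
    ring
  · show N = 0 + 0 + N
    ring
  · show N - N = 0 + 0 + 0
    ring

theorem ee3 (w : Fin 3 → ℝ) : ee A3 w = (w 0 + w 1) ^ 2 + 2 * w 0 * w 2 := by
  simp [ee, A3, A4, Fin.sum_univ_three]
  ring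

theorem tt_cont (G : SimpleGraph V) : Continuous fun w : Fin 3 → ℝ => tt G A3 Finset.univ w := by
  simp only [tt_univ]
  fun_prop

def cl (n a b : ℕ) (i : Fin n) : Fin 3 := if i.val < a then 0 else if i.val < b then 1 else 2

def HH (n a b : ℕ) : SimpleGraph (Fin n) where
  Adj i j := i ≠ j ∧ A3 (cl n a b i) (cl n a b j)
  symm := ⟨fun i j h => ⟨h.1.symm, by have := h.2; unfold A3 A4 at *; omega⟩⟩
  loopless := ⟨fun i h => h.1 rfl⟩

theorem HH_close (G : SimpleGraph V) (n a b : ℕ) [Nonempty (Fin n)] (hab : a ≤ b) (hb : b ≤ n) :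
    |ee (HH n a b).Adj (fun _ => mu (Fin n)) - ee A3 ![a / n, b / n - a / n, 1 - b / n]| ≤ 1 / n ∧
    |tt G (HH n a b).Adj Finset.univ (fun _ => mu (Fin n)) -
      tt G A3 Finset.univ ![a / n, b / n - a / n, 1 - b / n]| ≤
        (Fintype.card V : ℝ) ^ 2 * (1 / n) := by
  have hn : (0 : ℝ) < n := by
    have : 0 < n := Fin.pos_iff_nonempty.mpr inferInstance
    exact_mod_cast this
  have c1 := cnt n a (hab.trans hb)
  have c2 := cnt n b hb
  have hw : ∀ y, (![a / n, b / n - a / n, 1 - b / n] : Fin 3 → ℝ) y =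
      ∑ x, if cl n a b x = y then mu (Fin n) else 0 := by
    intro y
    have hm : mu (Fin n) = 1 / n := by simp [mu]
    fin_cases y
    · show (a : ℝ) / n = _
      rw [← c1, Finset.sum_div]
      refine Finset.sum_congr rfl fun x _ => ?_
      unfold cl
      by_cases h1 : x.val < a <;> by_cases h2 : x.val < b <;> simp [h1, h2, hm]
    · show (b : ℝ) / n - a / n = _
      rw [← c1, ← c2, Finset.sum_div, Finset.sum_div, ← Finset.sum_sub_distrib]
      refine Finset.sum_congr rfl fun x _ => ?_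
      unfold cl
      by_cases h1 : x.val < a
      · have h2 : x.val < b := by omega
        simp [h1, h2, hm]
      · by_cases h2 : x.val < b <;> simp [h1, h2, hm]
    · show 1 - (b : ℝ) / n = _
      rw [← sum_mu (X := Fin n), ← c2, Finset.sum_div, ← Finset.sum_sub_distrib]
      refine Finset.sum_congr rfl fun x _ => ?_
      unfold cl
      by_cases h1 : x.val < a
      · have h2 : x.val < b := by omega
        simp [h1, h2, hm]
      · by_cases h2 : x.val < b <;> simp [h1, h2, hm]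
  rw [← push_tt G A3 (cl n a b) _ _ hw, ← push_ee A3 (cl n a b) _ _ hw]
  have z1 : ee (fun x y => (HH n a b).Adj x y ∧ ¬ A3 (cl n a b x) (cl n a b y))
      (fun _ => mu (Fin n)) = 0 := by
    refine Finset.sum_eq_zero fun x _ => Finset.sum_eq_zero fun y _ => ?_
    rw [if_neg (fun h => h.2 h.1.2), mul_zero]
  have z2 : ee (fun x y => A3 (cl n a b x) (cl n a b y) ∧ ¬ (HH n a b).Adj x y)
      (fun _ => mu (Fin n)) ≤ 1 / n := by
    rw [ee_dg]
    have : ∑ x, dg (fun x y => A3 (cl n a b x) (cl n a b y) ∧ ¬ (HH n a b).Adj x y) x ≤ n := by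
      refine le_trans (Finset.sum_le_sum (g := fun _ => (1 : ℝ)) fun x _ => ?_) (by simp)
      refine le_trans (Finset.sum_le_sum (g := fun y => if y = x then (1 : ℝ) else 0)
        fun y _ => ?_) (by simp)
      by_cases h : y = x
      · rw [if_pos h]; split_ifs <;> norm_num
      · rw [if_neg h, if_neg fun h' => h'.2 ⟨fun h'' => h h''.symm, h'.1⟩]
    refine le_trans (mul_le_mul_of_nonneg_left this (sq_nonneg _)) (le_of_eq ?_)
    unfold mu; rw [Fintype.card_fin]; field_simp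
  have k1 := ee_edit (HH n a b).Adj (fun x y => A3 (cl n a b x) (cl n a b y))
  have k2 := ee_edit (fun x y => A3 (cl n a b x) (cl n a b y)) (HH n a b).Adj
  have k3 := edit G (HH n a b).Adj (fun x y => A3 (cl n a b x) (cl n a b y))
  have k4 := edit G (fun x y => A3 (cl n a b x) (cl n a b y)) (HH n a b).Adj
  have k5 := mul_le_mul_of_nonneg_left z2 (sq_nonneg (Fintype.card V : ℝ))
  have k6 : 0 ≤ 1 / (n : ℝ) := by positivity
  have k7 : 0 ≤ (Fintype.card V : ℝ) ^ 2 * (1 / n) := by positivity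
  rw [z1] at k1 k3
  constructor <;> rw [abs_le] <;> constructor <;> linarith

end Pool.Agent.H.MP_35cd17_co
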